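import Pool.Agent.Lib.UMst.Prj

/-!
# Cl1: the master condition forces `β ∈ C`

PROOF. `r0 = (g, m)`; `LQ r0 p` (`prj` for `r = r0`, `hp`). `LimI β`: `G.ne`, `G.lt`, `G.bc`. The second clause of `hC` at `y = β` is an `Imp` at `p`; apply it at `q = r0`: it remains to show, for every `b < β`, `Exi L (fun z : {z // b < z ∧ z < β} => Mem L C z.1) r0`. Let `r ≤ r0`. `prj`: `r.1 ∈ H`, `w = (ρ r.1, v r.1) ∈ DD T V`, and
`LQ w p` (`prj_mono` for `r ≤ r0`, `hp`). Choose `y ∈ X`, `b < y` (`G.bc`). `hcl w y` gives `w' ∈ DD T V`, `LQ w' w`, `y' ∈ X`, `y < y'`, `Mem L C y' w'`. `lft` gives `r' ≤ r`, `r'.1 ∈ H` with projection `w'`, and `LQ r' w'` (`prj` for `r' ≤ r0`); so `Mem L C y' r'` (`Mem_down`), `b < y' < β`.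
-/

set_option autoImplicit false
universe u

namespace Pool.Agent.UMst

open Cardinal Pool.Agent.PolF Pool.Agent.UlM Pool.Agent.UlB Pool.Agent.UTop

variable {P K J : Type u} [LinearOrder K] [WellFoundedLT K] [LinearOrder J] [WellFoundedLT J]
  {le : P → P → Prop} {lam : Cardinal.{u}} {pd : J → Set J}
  {e : J → K × K → Set (P × Cn le lam K J)} {T H : Set P} {V : Set (Cn le lam K J)} {ρ : P → P}
  {v : P → Cn le lam K J} {X : Set K} {β : K} {nu : Cardinal.{u}}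

theorem cl1 (H0 : TopH le K lam) (hpd : PdH pd)
    (E : Ext le (fun t a b => Lq pd e Set.univ a b t) T V H ρ v nu) (G : GX pd e T V X β nu)
    {m : Cn le lam K J} (hm : ∀ t ∈ H, Lq pd e Set.univ m (v t) t)
    {C : K → Set (P × Cn le lam K J)} {p : P × Cn le lam K J}
    (hC : FClub (LQ pd e) C Set.univ p)
    (hcl : ∀ z ∈ DD T V, LQ pd e z p → ∀ y ∈ X, ∃ z' ∈ DD T V, LQ pd e z' z ∧ ∃ y' ∈ X, y < y' ∧
      Mem (LQ pd e) C y' z')
    {g : P} (hg : g ∈ H) (hp : (ρ g, v g) = p) :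
    LQ pd e (g, m) p ∧ LimI β ∧ Mem (LQ pd e) C β (g, m) := by
  have htr : ∀ a b c : P × Cn le lam K J, LQ pd e a b → LQ pd e b c → LQ pd e a c :=
    Lx_trans H0 hpd Set.univ fun _ _ => Set.subset_univ _
  have h0 : LQ pd e (g, m) (g, m) := Lx_refl H0 _ _
  obtain ⟨-, h1, h2⟩ := prj H0 hpd E hm hg h0
  have hgp : LQ pd e (g, m) p := by
    rw [← hp]
    exact h2
  have hL : LimI β := by
    refine ⟨?_, fun a ha => ?_⟩
    · obtain ⟨y, hy⟩ := G.ne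
      exact ⟨y, G.lt y hy⟩
    · obtain ⟨y, hy, hay⟩ := G.bc a ha
      exact ⟨y, hay, G.lt y hy⟩
  refine ⟨hgp, hL, hC.2 β (Set.mem_univ _) hL (g, m) hgp ?_⟩
  intro b hb r hr
  obtain ⟨hrH, hw, hrw⟩ := prj H0 hpd E hm hg hr
  have hwp : LQ pd e (ρ r.1, v r.1) p := by
    have h3 := (prj_mono H0 hpd E (r := (g, m)) hg hr).2
    rw [← hp]
    exact h3
  obtain ⟨y, hy, hby⟩ := G.bc b hb
  obtain ⟨w', hw', hww, y', hy', hyy, hmem⟩ := hcl _ hw hwp y hy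
  obtain ⟨r', hr', hrH', hpr⟩ := lft H0 hpd E hrH hw' hww
  have h4 : LQ pd e r' (g, m) := htr _ _ _ hr' hr
  obtain ⟨-, -, h5⟩ := prj H0 hpd E hm hg h4
  rw [hpr] at h5
  exact ⟨r', hr', ⟨y', hby.trans hyy, G.lt y' hy'⟩, Mem_down htr h5 hmem⟩

end Pool.Agent.UMst
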