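import Pool.Agent.Lib.UMst.Defs
import Pool.Agent.Lib.UTop.Lad

/-!
# Cl2: `β` does not get cofinality `ω`

PROOF. (0) If `u : ℕ → K`, `u n < β` for all `n`, there is `c < β` with `u n ≤ c` for all `n`: choose `x n ∈ X`, `u n < x n` (`G.bc`). If some `c < β` bounds all `x n`, fine. Otherwise `∀ c < β, ∃ n, c < x n`, so `Lim x β` (`G.lt`), `β ∈ X` by `G.om`, against `G.lt β`. Let `L = LQ pd e` (transitive: `Lx_trans H0 hpd`, reflexive `Lx_refl H0`).
Let `f`, `q ≤ r0`, `FPfn L (Iio w0) (Iio β) f q`. `omg h0 h0'` gives `b : ℕ → K` with `Set.range b = Iio w0`. For every `n` and `z` there is `z' ≤ z` with `A n z'`: `(∃ y < β, Mem L f (b n, y) z') ∨ ∀ y < β, Neg L (Mem L f (b n, y)) z'` (if the second alternative fails at `z` itself then the first holds at some `z' ≤ z`). Recursion: `z 0 = q`, `z (n+1) ≤ z n` with `A n (z (n+1))`. `hs`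
gives `r ≤ z n` for all `n`. Choose `u n < β` with `Mem L f (b n, u n) (z (n+1))` if the first alternative holds, otherwise any element below `β`; `c` by (0). Answer: `r`, `c`. Let `i = b n ∈ Iio w0`, `c < y < β`, `s ≤ r`, `Mem L f (i, y) s`. First alternative: `Mem L f (i, u n) s` too (`Mem_down`), `u n ≤ c < y`, so `u n ≠ y`, against `FPfn` at `s ≤ q`. Second: contradiction at `s ≤ z (n+1)`.
-/

set_option autoImplicit false
universe u

namespace Pool.Agent.UMst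

open Cardinal Pool.Agent.PolF Pool.Agent.UlM Pool.Agent.UlB Pool.Agent.UTop

variable {P K J : Type u} [LinearOrder K] [WellFoundedLT K] [LinearOrder J] [WellFoundedLT J]
  {le : P → P → Prop} {lam : Cardinal.{u}} {pd : J → Set J}
  {e : J → K × K → Set (P × Cn le lam K J)} {T H : Set P} {V : Set (Cn le lam K J)} {ρ : P → P}
  {v : P → Cn le lam K J} {X : Set K} {β : K} {nu : Cardinal.{u}}

theorem cl2 (H0 : TopH le K lam) (hpd : PdH pd) (G : GX pd e T V X β nu) (hs : SgC (LQ pd e))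
    {w0 : K} (h0 : LimI w0) (h0' : ∀ t < w0, ¬ LimI t) (r0 : P × Cn le lam K J) :
    FNcof (LQ pd e) (Set.Iio w0) β r0 := by
  have hLt : ∀ p q r : P × Cn le lam K J, LQ pd e p q → LQ pd e q r → LQ pd e p r :=
    fun p q r h h' => Lx_trans H0 hpd Set.univ (fun g _ => Set.subset_univ _) p q r h h'
  have hLr : ∀ p : P × Cn le lam K J, LQ pd e p p := fun p => Lx_refl H0 _ p
  have hbd : ∀ u : ℕ → K, (∀ n, u n < β) → ∃ c < β, ∀ n, u n ≤ c := by
    intro u hu
    choose x hx hux using fun n => G.bc (u n) (hu n)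
    by_contra hcon
    push Not at hcon
    have hlim : Lim x β := ⟨fun n => G.lt _ (hx n), fun c hc => by
      obtain ⟨n, hn⟩ := hcon c hc
      exact ⟨n, hn.trans (hux n)⟩⟩
    exact lt_irrefl β (G.lt β (G.om x β hlim hx))
  intro f q hq hf
  obtain ⟨b, hbm, hbr⟩ := omg h0 h0'
  have hA : ∀ (n : ℕ) (z : P × Cn le lam K J), ∃ z', LQ pd e z' z ∧
      ((∃ y < β, Mem (LQ pd e) f (b n, y) z') ∨
        ∀ y < β, Neg (LQ pd e) (Mem (LQ pd e) f (b n, y)) z') := by
    intro n z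
    by_cases h : ∀ y < β, Neg (LQ pd e) (Mem (LQ pd e) f (b n, y)) z
    · exact ⟨z, hLr z, Or.inr h⟩
    · simp only [PolF.Neg] at h
      push Not at h
      obtain ⟨y, hy, z', hz', hm⟩ := h
      exact ⟨z', hz', Or.inl ⟨y, hy, hm⟩⟩
  choose g hg1 hg2 using hA
  let z : ℕ → P × Cn le lam K J := fun n => Nat.rec q (fun n w => g n w) n
  have hz1 : ∀ n, LQ pd e (z (n + 1)) (z n) := fun n => hg1 n (z n)
  have hz2 : ∀ n, (∃ y < β, Mem (LQ pd e) f (b n, y) (z (n + 1))) ∨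
      ∀ y < β, Neg (LQ pd e) (Mem (LQ pd e) f (b n, y)) (z (n + 1)) := fun n => hg2 n (z n)
  obtain ⟨r, hr⟩ := hs z hz1
  obtain ⟨y0, hy0⟩ : ∃ y0, y0 < β := by
    obtain ⟨y, hy⟩ := G.ne
    exact ⟨y, G.lt y hy⟩
  have hu : ∀ n, ∃ y < β, Mem (LQ pd e) f (b n, y) (z (n + 1)) ∨
      ∀ y < β, Neg (LQ pd e) (Mem (LQ pd e) f (b n, y)) (z (n + 1)) := by
    intro n
    rcases hz2 n with ⟨y, hy, hm⟩ | h
    · exact ⟨y, hy, Or.inl hm⟩
    · exact ⟨y0, hy0, Or.inr h⟩
  choose u hu1 hu2 using hu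
  obtain ⟨c, hc, huc⟩ := hbd u hu1
  refine ⟨r, hr 0, c, hc, ?_⟩
  intro i hi y hcy hyb
  have hir : i ∈ Set.range b := by
    rw [hbr]
    exact hi
  obtain ⟨n, rfl⟩ := hir
  intro s hsr hm
  have hsn : LQ pd e s (z (n + 1)) := hLt _ _ _ hsr (hr (n + 1))
  rcases hu2 n with h | h
  · exact hf (b n) hi (u n) (hu1 n) y hyb (ne_of_lt ((huc n).trans_lt hcy)) s
      (hLt _ _ _ hsr (hr 0)) ⟨Mem_down hLt hsn h, hm⟩
  · exact h y hyb s hsn hm

end Pool.Agent.UMst
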