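import Pool.Agent.Lib.UMst.Defs
import Pool.Agent.Lib.UTop.Trn

/-!
# Lpt: the limit points of a club of `β` which are in `X`

`Lp L D y` is the set of the conditions forcing that `y` is a limit point of `D`. PROOF. `L = LQ pd e` is a preorder (`Lx_trans H0 hpd univ`, `Lx_refl H0`). `Lp L D y` is closed under stronger conditions (`Exi_down`), so `Mem L (Lp L D) y r` holds for `r ∈ Lp L D y` (`lp_of`). `lp_mem`: for `b < y`, `q ≤ r`: `Mem` gives `q1 ≤ q`, `q2 ∈ Lp L D y` with `q1 ≤ q2`, so there are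
`q3 ≤ q1` and `z` as required.
`lp_unb`: let `b ∈ X` (`b < β`). Let `r ≤ q0`. Step: for `z ≤ q0` and `x < β` there are `z' ≤ z`, `d`, `x'` with `x < d < x'`, `x' ∈ X`, `Mem L D d z'` (first clause of `FClub`, then `G.bc`). Recursion (a sequence in the set of triples `(z, d, x)`, `z ≤ q0`, `x < β`): `z n ≥ z (n+1)`, `z 0 ≤ r`, `b < d 0`, `d n < x n < d (n+1)`, `x n ∈ X`, `Mem L D (d n) (z n)`. `hs` gives `r' ≤ z n` for all
`n`. Let `y` be the least upper bound of the `x n` (the least element of `{y | ∀ n, x n < y}`, which contains `β`): `Lim x y`, so `y ∈ X` by `G.om`; `b < y`. `r' ∈ Lp L D y`: for `b' < y` some `n` has `b' < x n < d (n+1) < x (n+1) < y`, `Mem L D (d (n+1)) r'`.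
`lp_cl`: let `y ∈ X`, `cw y`, and `r` with `∀ b ∈ X, b < y → Exi L (fun z : {z : K // z ∈ X ∧ b < z ∧ z < y} => Mem L (Lp L D) z.1) r`. Claim `r ∈ Lp L D y` (then `lp_of`): let `b < y`; by `G.cw` there is `x ∈ X`, `b < x < y` (`Lim u y`, `u n ∈ X`). For `q ≤ r` there are `q1 ≤ q`, `z ∈ X`, `x < z < y`, `Mem L (Lp L D) z q1`; by `lp_mem` there are `q2 ≤ q1` and `d`, `x < d < z`, with `Mem L D d q2`.
-/

set_option autoImplicit false
set_option linter.unusedSectionVars false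
universe u

namespace Pool.Agent.UMst

open Cardinal Pool.Agent.PolF Pool.Agent.UlM Pool.Agent.UlB Pool.Agent.UTop

variable {P K J : Type u} [LinearOrder K] [WellFoundedLT K] [LinearOrder J] [WellFoundedLT J]
  {le : P → P → Prop} {lam : Cardinal.{u}} {pd : J → Set J}
  {e : J → K × K → Set (P × Cn le lam K J)} {T H : Set P} {V : Set (Cn le lam K J)} {ρ : P → P}
  {v : P → Cn le lam K J} {X : Set K} {β : K} {nu : Cardinal.{u}}

/-- the conditions forcing that `y` is a limit point of `D` -/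
def Lp {Q : Type u} (L : Q → Q → Prop) (D : K → Set Q) (y : K) : Set Q :=
  {r | ∀ b < y, Exi L (fun z : {z : K // b < z ∧ z < y} => Mem L D z.1) r}

private theorem lpt_tr (H0 : TopH le K lam) (hpd : PdH pd) (p q r : P × Cn le lam K J)
    (h : LQ pd e p q) (h' : LQ pd e q r) : LQ pd e p r :=
  Lx_trans H0 hpd Set.univ (fun _ _ _ _ => trivial) p q r h h'

private theorem lpt_rf (H0 : TopH le K lam) (p : P × Cn le lam K J) : LQ pd e p p :=
  Lx_refl H0 Set.univ p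

theorem lp_of (H0 : TopH le K lam) (hpd : PdH pd) {D : K → Set (P × Cn le lam K J)} {y : K}
    {r : P × Cn le lam K J} (h : r ∈ Lp (LQ pd e) D y) : Mem (LQ pd e) (Lp (LQ pd e) D) y r := by
  intro q hq
  exact ⟨q, lpt_rf H0 q, r, h, hq⟩

theorem lp_mem (H0 : TopH le K lam) (hpd : PdH pd) {D : K → Set (P × Cn le lam K J)} {y : K}
    {r : P × Cn le lam K J} (h : Mem (LQ pd e) (Lp (LQ pd e) D) y r) : r ∈ Lp (LQ pd e) D y := by
  intro b hb q hq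
  obtain ⟨q1, h1, q2, h2, h3⟩ := h q hq
  obtain ⟨q3, h4, z, h5⟩ := h2 b hb q1 h3
  exact ⟨q3, lpt_tr H0 hpd _ _ _ h4 h1, z, h5⟩

/-- the recursion -/
private theorem lpt_seq {Q : Type u} (L : Q → Q → Prop) (A : K → Prop) (M : K → Q → Prop) (X : Set K)
    (q0 : Q) (hX : ∀ y ∈ X, A y) (ht : ∀ p q r, L p q → L q r → L p r)
    (hst : ∀ z, L z q0 → ∀ x, A x → ∃ z', L z' z ∧ ∃ d x', x < d ∧ d < x' ∧ x' ∈ X ∧ M d z')
    (r : Q) (hr : L r q0) (b : K) (hb : A b) :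
    ∃ (z : ℕ → Q) (x : ℕ → K), z 0 = r ∧ x 0 = b ∧ (∀ n, L (z (n + 1)) (z n)) ∧
      ∀ n, x (n + 1) ∈ X ∧ ∃ d, x n < d ∧ d < x (n + 1) ∧ M d (z (n + 1)) := by
  have hnext : ∀ s : {s : Q × K // L s.1 q0 ∧ A s.2}, ∃ s' : {s : Q × K // L s.1 q0 ∧ A s.2},
      L s'.1.1 s.1.1 ∧ s'.1.2 ∈ X ∧ ∃ d, s.1.2 < d ∧ d < s'.1.2 ∧ M d s'.1.1 := by
    rintro ⟨⟨z, x⟩, hz, hx⟩
    obtain ⟨z', h1, d, x', h2, h3, h4, h5⟩ := hst z hz x hx
    exact ⟨⟨(z', x'), ht _ _ _ h1 hz, hX x' h4⟩, h1, h4, d, h2, h3, h5⟩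
  choose nx h1 h2 h3 using hnext
  refine ⟨fun n => (nx^[n] ⟨(r, b), hr, hb⟩).1.1, fun n => (nx^[n] ⟨(r, b), hr, hb⟩).1.2, rfl, rfl,
    fun n => ?_, fun n => ?_⟩
  · simp only [Function.iterate_succ_apply']
    exact h1 _
  · simp only [Function.iterate_succ_apply']
    exact ⟨h2 _, h3 _⟩

theorem lp_unb (H0 : TopH le K lam) (hpd : PdH pd) (G : GX pd e T V X β nu) (hs : SgC (LQ pd e))
    {D : K → Set (P × Cn le lam K J)} {q0 : P × Cn le lam K J}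
    (hD : FClub (LQ pd e) D (Set.Iio β) q0) {b : K} (hb : b < β) :
    Exi (LQ pd e) (fun y : {y : K // y ∈ X ∧ b < y} => Mem (LQ pd e) (Lp (LQ pd e) D) y.1) q0 := by
  intro r hr
  obtain ⟨z, x, hz0, hx0, hz, hx⟩ := lpt_seq (LQ pd e) (fun x => x < β)
    (fun d z => Mem (LQ pd e) D d z) X q0 G.lt (lpt_tr H0 hpd) (by
      intro z hz x hx
      obtain ⟨z', h1, ⟨d, h2, h3⟩, h4⟩ := hD.1 x hx z hz
      obtain ⟨x', h5, h6⟩ := G.bc d h2
      exact ⟨z', h1, d, x', h3, h6, h5, h4⟩) r hr b hb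
  obtain ⟨r', hr'⟩ := hs z hz
  have hne : ({y | ∀ n, x n < y} : Set K).Nonempty := by
    refine ⟨β, fun n => ?_⟩
    cases n with
    | zero => exact lt_of_eq_of_lt hx0 hb
    | succ n => exact G.lt _ (hx n).1
  obtain ⟨y, hy1, hy2⟩ : ∃ y : K, (∀ n, x n < y) ∧ ∀ y', (∀ n, x n < y') → y ≤ y' :=
    ⟨(wellFounded_lt : WellFounded ((· < ·) : K → K → Prop)).min _ hne,
      (wellFounded_lt : WellFounded ((· < ·) : K → K → Prop)).min_mem _ hne,
      fun y' hy' => not_lt.1 ((wellFounded_lt :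
        WellFounded ((· < ·) : K → K → Prop)).not_lt_min {y | ∀ n, x n < y} hy')⟩
  have hxlt : ∀ n, x n < x (n + 1) := by
    intro n
    obtain ⟨d, h1, h2, -⟩ := (hx n).2
    exact h1.trans h2
  have hlim : Lim (fun n => x (n + 1)) y := by
    refine ⟨fun n => hy1 (n + 1), fun x' hx' => ?_⟩
    by_contra hcon
    push Not at hcon
    refine absurd (hy2 x' fun n => ?_) (not_le.2 hx')
    exact (hxlt n).trans_le (hcon n)
  have hyX : y ∈ X := G.om _ y hlim fun n => (hx n).1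
  have hby : b < y := lt_of_eq_of_lt hx0.symm (hy1 0)
  refine ⟨r', ?_, ⟨y, hyX, hby⟩, lp_of H0 hpd ?_⟩
  · have h1 := hr' 0
    rwa [hz0] at h1
  · intro b' hb' q hq
    obtain ⟨n, hn⟩ := hlim.2 b' hb'
    obtain ⟨d, h1, h2, h3⟩ := (hx (n + 1)).2
    exact ⟨q, lpt_rf H0 q, ⟨d, lt_trans hn h1, h2.trans (hy1 _)⟩,
      Mem_down (lpt_tr H0 hpd) (lpt_tr H0 hpd _ _ _ hq (hr' _)) h3⟩

theorem lp_cl (H0 : TopH le K lam) (hpd : PdH pd) (G : GX pd e T V X β nu)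
    {D : K → Set (P × Cn le lam K J)} {y : K} (hy : y ∈ X) (hw : ∃ u : ℕ → K, Lim u y)
    {r : P × Cn le lam K J} (h : ∀ b ∈ X, b < y →
      Exi (LQ pd e) (fun z : {z : K // z ∈ X ∧ b < z ∧ z < y} =>
        Mem (LQ pd e) (Lp (LQ pd e) D) z.1) r) :
    Mem (LQ pd e) (Lp (LQ pd e) D) y r := by
  refine lp_of H0 hpd ?_
  intro b hb q hq
  obtain ⟨u, hu, hlim⟩ := G.cw y hy hw
  obtain ⟨n, hn⟩ := hlim.2 b hb
  obtain ⟨q1, h1, ⟨z, hzX, hz1, hz2⟩, h2⟩ := h (u n) (hu n) (hlim.1 n) q hq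
  obtain ⟨q2, h3, ⟨d, hd1, hd2⟩, h4⟩ := lp_mem H0 hpd h2 (u n) hz1 q1 (lpt_rf H0 q1)
  exact ⟨q2, lpt_tr H0 hpd _ _ _ h3 h1, ⟨d, hn.trans hd1, hd2.trans hz2⟩, h4⟩

end Pool.Agent.UMst
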