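import Pool.Agent.Lib.UMst.Prj

/-!
# Omd: transfer of a club in `X` to a name over `DD T V`

PROOF. `L = LQ pd e`, `D = DD T V`, `LD = leD L D` (a preorder: `Lx_trans H0 hpd univ`, `Lx_refl H0`). Every `w ≤ w'` in `D` is the projection of some `h ≤ r'` (`lft`), `h.1 ∈ H`; every `h1 ≤ h` has a projection `w1 ≤ w` in `D` (`prj_mono`, `E.rT`, `E.vV`), and `hN` applies to `h1` and `w1`.
First clause of `FOmc`: let `b : ↥X`, `w ≤ w'` and `h` as above. `hu b` at `h` (`h ≤ r'`) gives `h1 ≤ h`, `y ∈ X`, `b < y`, `Mem L N0 y h1`; for its projection `w1 ≤ w`: `Mem LD N' y w1` by `hN`. Second clause: let `y : ↥X` with `cw y`, `w ≤ w'` with `∀ b < y, Exi LD (..) w`; let `h ≤ r'` with projection `w`. By `hN` it is enough that `Mem L N0 y h`, by `hc` it is enough to show, for `b ∈ X`, `b < y`, `Exi L (..) h`: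
let `h1 ≤ h`, with projection `w1 ≤ w`: there are `w2 ≤ w1`, `z : ↥X`, `b < z < y`, `Mem LD N' z w2`; `lft` gives `h2 ≤ h1` with projection `w2`, and `Mem L N0 z h2` by `hN`.
-/

set_option autoImplicit false
universe u

namespace Pool.Agent.UMst

open Cardinal Pool.Agent.PolF Pool.Agent.UlM Pool.Agent.UlB Pool.Agent.UTop

variable {P K J : Type u} [LinearOrder K] [WellFoundedLT K] [LinearOrder J] [WellFoundedLT J]
  {le : P → P → Prop} {lam : Cardinal.{u}} {pd : J → Set J}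
  {e : J → K × K → Set (P × Cn le lam K J)} {T H : Set P} {V : Set (Cn le lam K J)} {ρ : P → P}
  {v : P → Cn le lam K J} {X : Set K} {β : K} {nu : Cardinal.{u}}

theorem omd (H0 : TopH le K lam) (hpd : PdH pd)
    (E : Ext le (fun t a b => Lq pd e Set.univ a b t) T V H ρ v nu) (G : GX pd e T V X β nu)
    {N0 : K → Set (P × Cn le lam K J)} {r' : P × Cn le lam K J} (hr : r'.1 ∈ H)
    {N' : ↥X → Set ↥(DD T V)}
    (hN : ∀ h, LQ pd e h r' → ∀ w : ↥(DD T V), w.1 = (ρ h.1, v h.1) → ∀ y : ↥X,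
        (Mem (LQ pd e) N0 y.1 h ↔ Mem (leD (LQ pd e) (DD T V)) N' y w))
    (hu : ∀ b ∈ X, ∀ h, LQ pd e h r' →
      ∃ h1, LQ pd e h1 h ∧ ∃ y ∈ X, b < y ∧ Mem (LQ pd e) N0 y h1)
    (hc : ∀ y ∈ X, (∃ u : ℕ → K, Lim u y) → ∀ h, LQ pd e h r' → (∀ b ∈ X, b < y →
      Exi (LQ pd e) (fun z : {z : K // z ∈ X ∧ b < z ∧ z < y} => Mem (LQ pd e) N0 z.1) h) →
      Mem (LQ pd e) N0 y h)
    {w' : ↥(DD T V)} (hw : w'.1 = (ρ r'.1, v r'.1)) :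
    FOmc (leD (LQ pd e) (DD T V)) (fun y : ↥X => ∃ u : ℕ → K, Lim u y.1) N' w' := by
  have htr : ∀ p q r, LQ pd e p q → LQ pd e q r → LQ pd e p r :=
    fun p q r h h' => Lx_trans H0 hpd Set.univ (fun _ _ => Set.subset_univ _) p q r h h'
  have lift1 : ∀ h, h.1 ∈ H → ∀ w : ↥(DD T V), LQ pd e w.1 (ρ h.1, v h.1) →
      ∃ h', LQ pd e h' h ∧ h'.1 ∈ H ∧ w.1 = (ρ h'.1, v h'.1) := by
    intro h hh w hww
    obtain ⟨h', h1, h2, h3⟩ := lft H0 hpd E hh w.2 hww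
    exact ⟨h', h1, h2, h3.symm⟩
  have proj1 : ∀ h h1, h.1 ∈ H → LQ pd e h1 h → ∀ w : ↥(DD T V), w.1 = (ρ h.1, v h.1) →
      ∃ w1 : ↥(DD T V), leD (LQ pd e) (DD T V) w1 w ∧ w1.1 = (ρ h1.1, v h1.1) ∧ h1.1 ∈ H := by
    intro h h1 hh hle w hw
    obtain ⟨h2, h3⟩ := prj_mono H0 hpd E hh hle
    refine ⟨⟨(ρ h1.1, v h1.1), E.rT _ h2, E.vV _ h2⟩, ?_, rfl, h2⟩
    show LQ pd e (ρ h1.1, v h1.1) w.1
    rw [hw]
    exact h3
  have lift0 : ∀ w : ↥(DD T V), leD (LQ pd e) (DD T V) w w' →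
      ∃ h', LQ pd e h' r' ∧ h'.1 ∈ H ∧ w.1 = (ρ h'.1, v h'.1) := by
    intro w hww
    refine lift1 r' hr w ?_
    have h1 : LQ pd e w.1 w'.1 := hww
    rw [hw] at h1
    exact h1
  constructor
  · intro b w hww
    obtain ⟨h, h1, h2, h3⟩ := lift0 w hww
    obtain ⟨g, hg, y, hy, hby, hm⟩ := hu b.1 b.2 h h1
    obtain ⟨w1, hw1, hw1', -⟩ := proj1 h g h2 hg w h3
    exact ⟨w1, hw1, ⟨⟨y, hy⟩, hby⟩, (hN g (htr _ _ _ hg h1) w1 hw1' ⟨y, hy⟩).1 hm⟩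
  · intro y hcy w hww hall
    obtain ⟨h, h1, h2, h3⟩ := lift0 w hww
    refine (hN h h1 w h3 y).1 (hc y.1 y.2 hcy h h1 ?_)
    intro b hb hby g hg
    obtain ⟨w1, hw1, hw1', hgH⟩ := proj1 h g h2 hg w h3
    obtain ⟨w2, hw2, z, hz⟩ := hall ⟨b, hb⟩ hby w1 hw1
    have hw2' : LQ pd e w2.1 (ρ g.1, v g.1) := by
      have h4 : LQ pd e w2.1 w1.1 := hw2
      rw [hw1'] at h4
      exact h4
    obtain ⟨g2, hg2, -, hg2'⟩ := lift1 g hgH w2 hw2'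
    have h5 : LQ pd e g2 r' := htr _ _ _ hg2 (htr _ _ _ hg h1)
    exact ⟨g2, hg2, ⟨z.1.1, z.1.2, z.2.1, z.2.2⟩, (hN g2 h5 w2 hg2' z.1).2 hz⟩

end Pool.Agent.UMst
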