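import Pool.Agent.Lib.UMst.Trd
import Pool.Agent.Lib.UMst.Lpt
import Pool.Agent.Lib.UMst.Omd
import Pool.Agent.Lib.UTop.Sel

/-!
# Cl3: `S ∩ β` is stationary in `β`

PROOF. `L = LQ pd e` (a preorder). Let `D`, `q ≤ r0 := (g, m)`, `FClub L D (Iio β) q`. `q.1 ∈ H` (`prj`). `trd` for `Y = ↥X` (`G.kn`, `G.cX`) and the name `y ↦ Lp L D y.1` at `q` gives `r' ≤ q`, `r'.1 ∈ H` and `N' : ↥X → Set ↥(DD T V)` with (1) `Mem L (Lp L D) y.1 h ↔ Mem LD N' y w` for `h ≤ r'` with projection `w` (`Mem` of the restricted name at `y` is by definition `Mem L (Lp L D) y.1`).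
`w' = (ρ r'.1, v r'.1) ∈ DD T V`. `omd` with `N0 = Lp L D`: `hu` by `lp_unb` (`FClub` at `q`, unfold `Exi` at `h ≤ q`), `hc` by `lp_cl`. `G.st N' w'` gives `w ≤ w'` in `DD T V` and `y : ↥X` with `Mem LD N' y w`, `Mem LD (nmD .. SN) y w`. `lft` gives `h ≤ r'`, `h.1 ∈ H`, with projection `w`; by (1) `Mem L (Lp L D) y h`; `G.mS`: `Mem L SN y w.1`, and `LQ h w.1` (`prj`, `h ≤ r0`), so
`Mem L SN y h`. `y < β` (`G.lt`). `LimI y`: `SN_sel` gives `z' ≤ h`, `a` with `Mem le z'.2.s (y, a) z'.1`, `mem_sel H0`: `StrictMono a`, `Lim a y`: `a 0 < y`, and for `b < y` some `b < a n < y`. The second clause of `FClub` (an `Imp` at `q`) at `y` and `h`: `h ∈ Lp L D y` by `lp_mem`; so `Mem L D y h`. Answer: `h`, `y`.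
-/

set_option autoImplicit false
universe u

namespace Pool.Agent.UMst

open Cardinal Pool.Agent.PolF Pool.Agent.UlM Pool.Agent.UlB Pool.Agent.UTop

variable {P K J : Type u} [LinearOrder K] [WellFoundedLT K] [LinearOrder J] [WellFoundedLT J]
  {le : P → P → Prop} {lam : Cardinal.{u}} {pd : J → Set J}
  {e : J → K × K → Set (P × Cn le lam K J)} {T H : Set P} {V : Set (Cn le lam K J)} {ρ : P → P}
  {v : P → Cn le lam K J} {X : Set K} {β : K} {nu : Cardinal.{u}}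

theorem cl3 (H0 : TopH le K lam) (hpd : PdH pd)
    (E : Ext le (fun t a b => Lq pd e Set.univ a b t) T V H ρ v nu) (G : GX pd e T V X β nu) (hs : SgC (LQ pd e))
    {m : Cn le lam K J} (hm : ∀ t ∈ H, Lq pd e Set.univ m (v t) t) {g : P} (hg : g ∈ H) :
    FStat (LQ pd e) (SN lam le K J) (Set.Iio β) (g, m) := by
  have ltr : ∀ p q r : P × Cn le lam K J, LQ pd e p q → LQ pd e q r → LQ pd e p r :=
    Lx_trans H0 hpd Set.univ (fun _ _ _ _ => trivial)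
  intro D q hq hD
  have hqH : q.1 ∈ H := (prj H0 hpd E hm hg hq).1
  obtain ⟨r', hr'q, hr'H, N', h1⟩ := trd H0 hpd E (Y := ↥X) G.kn G.cX
    (fun y : ↥X => Lp (LQ pd e) D y.1) hqH
  have hN : ∀ h, LQ pd e h r' → ∀ w : ↥(DD T V), w.1 = (ρ h.1, v h.1) → ∀ y : ↥X,
      (Mem (LQ pd e) (Lp (LQ pd e) D) y.1 h ↔ Mem (leD (LQ pd e) (DD T V)) N' y w) :=
    fun h hh w hw y => h1 h hh w hw y
  have hw' : (ρ r'.1, v r'.1) ∈ DD T V := ⟨E.rT _ hr'H, E.vV _ hr'H⟩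
  have hF := omd H0 hpd E G (N0 := Lp (LQ pd e) D) hr'H (N' := N') hN
    (fun b hb h hh => by
      obtain ⟨r, hr, ⟨y, hy, hby⟩, hM⟩ := lp_unb H0 hpd G hs hD (G.lt b hb) h (ltr _ _ _ hh hr'q)
      exact ⟨r, hr, y, hy, hby, hM⟩)
    (fun y hy hw h hh hE => lp_cl H0 hpd G hy hw hE)
    (w' := ⟨_, hw'⟩) rfl
  obtain ⟨w, hw, y, hy1, hy2⟩ := G.st N' ⟨_, hw'⟩ hF
  obtain ⟨h, hh, hhH, hhw⟩ := lft H0 hpd E hr'H w.2 hw
  have hhq : LQ pd e h q := ltr _ _ _ hh hr'q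
  have hM : Mem (LQ pd e) (Lp (LQ pd e) D) y.1 h := (hN h hh w hhw.symm y).2 hy1
  have hS : Mem (LQ pd e) (SN lam le K J) y.1 h := by
    have h2 := (prj H0 hpd E hm hg (ltr _ _ _ hhq hq)).2.2
    rw [hhw] at h2
    exact Mem_down ltr h2 (G.mS y w hy2)
  have hyβ : y.1 ∈ Set.Iio β := G.lt y.1 y.2
  have hlim : LimI y.1 := by
    obtain ⟨z', -, a, ha⟩ := SN_sel H0 hpd hS
    obtain ⟨-, hl, -, -⟩ := mem_sel H0 ha
    refine ⟨⟨a 0, hl.1 0⟩, fun b hb => ?_⟩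
    obtain ⟨n, hn⟩ := hl.2 b hb
    exact ⟨a n, hn, hl.1 n⟩
  exact ⟨h, hhq, y.1, hyβ, hD.2 y.1 hyβ hlim h hhq (lp_mem H0 hpd hM), hS⟩

end Pool.Agent.UMst
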