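import Pool.Agent.Lib.UMst.Ms1

/-!
# Dcd: a ladder of a point of `X` is decided by the projection, and is contained in `X`

PROOF. `ms_ex` gives `t1 ≤ t`, `t1 ∈ H`, `Mem (v t1).s (δ, a) t1`; `δ < (v t1).h` (`mem_sel H0`). `z = (ρ t1, v t1) ∈ DD T V` (`E.rT`, `E.vV`) and `z1 = (t1, v t1)` satisfies `LQ z1 z` (`E.rl`, `Lq_refl H0`) and `Mem le z1.2.s (δ, a) z1.1`. `G.sel` gives
`z' ∈ DD T V`, `LQ z' z`, `b` with `b n ∈ X`, `Mem le z'.2.s (δ, b) z'.1`. `E.gl` for `t1`, `z'.1`, `z'.2` gives `g ∈ H`, `g ≤ t1`, `ρ g = z'.1`, `v g = z'.2`. So `Mem le (v g).s (δ, b) (ρ g)`, hence at `g` (`E.rl`, `Mem_down`). Also `Mem le (v t1).s (δ, a) g`, and `Bq (v g) (v t1)` at `g` (`E.mono`, `Lq_down`) gives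
`Mem le (v g).s (δ, a) g`. `(v g).inc`: `a = b`. Answer: `t' = g`.
-/

set_option autoImplicit false
universe u

namespace Pool.Agent.UMst

open Cardinal Pool.Agent.PolF Pool.Agent.UlM Pool.Agent.UlB Pool.Agent.UTop

variable {P K J : Type u} [LinearOrder K] [WellFoundedLT K] [LinearOrder J] [WellFoundedLT J]
  {le : P → P → Prop} {lam : Cardinal.{u}} {pd : J → Set J}
  {e : J → K × K → Set (P × Cn le lam K J)} {T H : Set P} {V : Set (Cn le lam K J)} {ρ : P → P}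
  {v : P → Cn le lam K J} {X : Set K} {β : K} {nu : Cardinal.{u}}

theorem dcd (H0 : TopH le K lam) (hpd : PdH pd)
    (E : Ext le (fun t a b => Lq pd e Set.univ a b t) T V H ρ v nu) (G : GX pd e T V X β nu)
    {t : P} {δ : K} (hδ : δ ∈ X) {a : ℕ → K} (h : Mem le (ms H v) (δ, a) t) :
    ∃ t', le t' t ∧ t' ∈ H ∧ (∀ n, a n ∈ X) ∧ Mem le (v t').s (δ, a) (ρ t') := by
  obtain ⟨t1, ht1, hH1, h1⟩ := ms_ex H0 hpd E h
  have hδ1 : δ < (v t1).h := (mem_sel H0 h1).2.2.1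
  obtain ⟨z', hz', hzz, b, hbX, hb⟩ := G.sel (ρ t1, v t1) ⟨E.rT _ hH1, E.vV _ hH1⟩ δ hδ
    ⟨(t1, v t1), ⟨E.rl _ hH1, Lq_refl H0 _ _ _⟩, a, h1⟩
  obtain ⟨g, hg, hgt, hgr, hgv⟩ := E.gl t1 hH1 z'.1 hz'.1 z'.2 hz'.2 hzz.1 hzz.2
  have h2 : Mem le (v g).s (δ, b) (ρ g) := by rw [hgv, hgr]; exact hb
  have h3 : Mem le (v g).s (δ, b) g := Mem_down H0.tr (E.rl g hg) h2
  have h4 : Mem le (v t1).s (δ, a) g := Mem_down H0.tr hgt h1
  have h5 := (E.mono t1 hH1 g hgt).2.2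
  have h6 : Mem le (v g).s (δ, a) g := (h5.1.2 δ hδ1.le a g (E.rl g hg)).2 h4
  have hab : a = b := (v g).inc δ a b g h6 h3
  subst hab
  exact ⟨g, H0.tr _ _ _ hgt ht1, hg, hbX, h2⟩

end Pool.Agent.UMst
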