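import Pool.Agent.Lib.UTop.Trn
import Pool.Agent.Lib.UlM.Blk

/-!
# The master condition: interface

`P`, `le` is the preorder of the preparation, `Cn le lam K J` the set of the names of conditions of the top
block, `L = Lx pd e univ` the order of `Q = P × Cn`. `T ⊆ P` and `V ⊆ Cn` are small sets, `D = DD T V` is the set of
the `z : Q` with `z.1 ∈ T`, `z.2 ∈ V`; it is the forcing used by the conditions in `H ⊆ P` at a certain coordinate:
`t ∈ H` projects to the element `(ρ t, v t)` of `D`.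
-/

set_option autoImplicit false
universe u

namespace Pool.Agent.UMst

open Cardinal Pool.Agent.PolF Pool.Agent.UlM Pool.Agent.UlB Pool.Agent.UTop

/-- every decreasing sequence has a lower bound -/
def SgC {Q : Type u} (le : Q → Q → Prop) : Prop :=
  ∀ z : ℕ → Q, (∀ n, le (z (n + 1)) (z n)) → ∃ w, ∀ n, le w (z n)

/-- the product of `T` and `V` -/
def DD {P A : Type u} (T : Set P) (V : Set A) : Set (P × A) := {z | z.1 ∈ T ∧ z.2 ∈ V}

/-- the conditions in `H` project to `DD T V`; `R t a b` is read as `t ⊩ a ≤ b` -/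
structure Ext {P A : Type u} (le : P → P → Prop) (R : P → A → A → Prop) (T : Set P) (V : Set A)
    (H : Set P) (ρ : P → P) (v : P → A) (nu : Cardinal.{u}) : Prop where
  rT : ∀ t ∈ H, ρ t ∈ T
  rl : ∀ t ∈ H, le t (ρ t)
  vV : ∀ t ∈ H, v t ∈ V
  mono : ∀ t ∈ H, ∀ t', le t' t → t' ∈ H ∧ le (ρ t') (ρ t) ∧ R (ρ t') (v t') (v t)
  gl : ∀ t ∈ H, ∀ t' ∈ T, ∀ a ∈ V, le t' (ρ t) → R t' a (v t) → ∃ g ∈ H, le g t ∧ ρ g = t' ∧ v g = a
  red : ∀ Y : Type u, #Y ≤ nu → ∀ (c : Y → Set P), ∀ t ∈ H, ∃ t', le t' t ∧ ρ t' = ρ t ∧ v t' = v t ∧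
    ∃ c' : Y → Set ↥(DD T V), ∀ h, le h t' → ∀ w : ↥(DD T V), w.1 = (ρ h, v h) → ∀ y,
      (Mem le c y h ↔ Mem (leD (le2 le R) (DD T V)) c' y w)

section
variable {P K J : Type u} [LinearOrder K] [LinearOrder J] [WellFoundedLT J] {le : P → P → Prop}
  {lam : Cardinal.{u}}

/-- the order of `Q` -/
abbrev LQ (pd : J → Set J) (e : J → K × K → Set (P × Cn le lam K J)) :
    P × Cn le lam K J → P × Cn le lam K J → Prop :=
  Lx pd e Set.univ

/-- the reflected facts: `X ⊆ K` is small, with strict supremum `β` -/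
structure GX (pd : J → Set J) (e : J → K × K → Set (P × Cn le lam K J)) (T : Set P)
    (V : Set (Cn le lam K J)) (X : Set K) (β : K) (nu : Cardinal.{u}) : Prop where
  ne : X.Nonempty
  lt : ∀ y ∈ X, y < β
  bc : ∀ b < β, ∃ y ∈ X, b < y
  om : ∀ (u : ℕ → K) (y : K), Lim u y → (∀ n, u n ∈ X) → y ∈ X
  hg : ∀ q ∈ V, q.h ∈ X
  cw : ∀ y ∈ X, (∃ u : ℕ → K, Lim u y) → ∃ u : ℕ → K, (∀ n, u n ∈ X) ∧ Lim u y
  cX : #X ≤ lam
  cV : #V ≤ lam
  n0 : ℵ₀ ≤ nu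
  kn : #X ≤ nu
  nl : nu ≤ lam
  hi : ∀ z ∈ DD T V, ∀ y ∈ X, ∃ z' ∈ DD T V, LQ pd e z' z ∧ y < z'.2.h
  st : FStatO (leD (LQ pd e) (DD T V)) (fun y : ↥X => ∃ u : ℕ → K, Lim u y.1)
    (nmD (DD T V) X (SN lam le K J))
  un : FUnK (leD (LQ pd e) (DD T V)) (nmD (DD T V) X (SN lam le K J))
    (nmD2 (DD T V) X (AN lam le K J))
  mS : ∀ (y : ↥X) (w : ↥(DD T V)), Mem (leD (LQ pd e) (DD T V)) (nmD (DD T V) X (SN lam le K J)) y w →
    Mem (LQ pd e) (SN lam le K J) y.1 w.1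
  sel : ∀ z ∈ DD T V, ∀ y ∈ X, (∃ z1, LQ pd e z1 z ∧ ∃ a, Mem le z1.2.s (y, a) z1.1) →
    ∃ z' ∈ DD T V, LQ pd e z' z ∧ ∃ a : ℕ → K, (∀ n, a n ∈ X) ∧ Mem le z'.2.s (y, a) z'.1

end

end Pool.Agent.UMst
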