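import Pool.Agent.Lib.UMst.Defs

/-!
# Glb: mixing of names over a preorder

PROOF. Let `Λ` be a maximal (Zorn: `zorn_subset` or `exists_maximal`) set of pairwise incompatible elements `g` with `∃ f, W g f` (incompatible: no `r` with `le r g`, `le r g'`); choose `φ g` with `W g (φ g)` for `g ∈ Λ`. `f ξ = {h | ∃ g ∈ Λ, le h g ∧ Mem le (φ g) ξ h}`.
(1) If `g ∈ Λ`, `le h g`: `Mem le f ξ h ↔ Mem le (φ g) ξ h`. (←) for `q ≤ h`: `q ∈ f ξ` (`Mem_down`). (→) `Mem_loc`: for `q ≤ h` there are `r ≤ q` and `h3 ∈ f ξ`, `le r h3`, `h3 ≤ g' ∈ Λ`, `Mem (φ g') ξ h3`; `r` is below `g` and `g'`, so `g = g'`, and `Mem (φ g) ξ r`.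
Let `W t f'`. By maximality `t` is compatible with some `g ∈ Λ` (or `t ∈ Λ`): `t' ≤ t`, `t' ≤ g`; `W t' (φ g)` by `hd`; the equivalence for all `q ≤ t'` by (1).
-/

set_option autoImplicit false
universe u

namespace Pool.Agent.UMst

open Cardinal Pool.Agent.PolF Pool.Agent.UlM Pool.Agent.UlB Pool.Agent.UTop

theorem glb {P K : Type u} {le : P → P → Prop} (hr : ∀ p, le p p)
    (ht : ∀ p q r, le p q → le q r → le p r) (W : P → (K → Set P) → Prop)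
    (hd : ∀ g g' f, le g' g → W g f → W g' f) :
    ∃ f : K → Set P, ∀ t f', W t f' → ∃ t' f'', le t' t ∧ W t' f'' ∧
      ∀ ξ, Iff' le (Mem le f ξ) (Mem le f'' ξ) t' := by
  classical
  -- families of pairwise incompatible good conditions
  let A : Set (Set P) := {Λ | (∀ g ∈ Λ, ∃ f, W g f) ∧
    ∀ g ∈ Λ, ∀ g' ∈ Λ, (∃ r, le r g ∧ le r g') → g = g'}
  obtain ⟨Λ, hΛ⟩ : ∃ Λ, Maximal (· ∈ A) Λ := by
    refine zorn_subset A ?_
    intro c hc hch
    refine ⟨⋃₀ c, ⟨?_, ?_⟩, fun s hs => Set.subset_sUnion_of_mem hs⟩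
    · rintro g ⟨s, hs, hg⟩
      exact (hc hs).1 g hg
    · rintro g ⟨s, hs, hg⟩ g' ⟨s', hs', hg'⟩ hcp
      rcases hch.total hs hs' with h | h
      · exact (hc hs').2 g (h hg) g' hg' hcp
      · exact (hc hs).2 g hg g' (h hg') hcp
  have hex : ∀ g : P, ∃ f : K → Set P, g ∈ Λ → W g f := by
    intro g
    by_cases hg : g ∈ Λ
    · obtain ⟨f, hf⟩ := hΛ.prop.1 g hg
      exact ⟨f, fun _ => hf⟩
    · exact ⟨fun _ => ∅, fun h => absurd h hg⟩
  choose φ hφ using hex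
  let f : K → Set P := fun ξ => {h | ∃ g ∈ Λ, le h g ∧ Mem le (φ g) ξ h}
  have key : ∀ g ∈ Λ, ∀ h, le h g → ∀ ξ, (Mem le f ξ h ↔ Mem le (φ g) ξ h) := by
    intro g hg h hh ξ
    constructor
    · intro hm
      refine Mem_loc ht hr fun q hq => ?_
      obtain ⟨r, hrq, h3, ⟨g', hg', h3g, h3m⟩, hr3⟩ := hm q hq
      have e : g = g' := hΛ.prop.2 g hg g' hg' ⟨r, ht _ _ _ hrq (ht _ _ _ hq hh), ht _ _ _ hr3 h3g⟩
      subst e
      exact ⟨r, hrq, Mem_down ht hr3 h3m⟩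
    · intro hm q hq
      exact ⟨q, hr q, q, ⟨g, hg, ht _ _ _ hq hh, Mem_down ht hq hm⟩, hr q⟩
  refine ⟨f, fun t f' hW => ?_⟩
  -- `t` is compatible with an element of `Λ`
  obtain ⟨g, hg, r, hrt, hrg⟩ : ∃ g ∈ Λ, ∃ r, le r t ∧ le r g := by
    by_contra hne
    push Not at hne
    have hin : insert t Λ ∈ A := by
      refine ⟨?_, ?_⟩
      · rintro g (rfl | hg)
        · exact ⟨f', hW⟩
        · exact hΛ.prop.1 g hg
      · rintro g (rfl | hg) g' (rfl | hg') ⟨r, h1, h2⟩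
        · rfl
        · exact absurd h2 (hne g' hg' r h1)
        · exact absurd h1 (hne g hg r h2)
        · exact hΛ.prop.2 g hg g' hg' ⟨r, h1, h2⟩
    have htm : t ∈ Λ := hΛ.le_of_ge hin (Set.subset_insert _ _) (Set.mem_insert _ _)
    exact hne t htm t (hr t) (hr t)
  exact ⟨r, φ g, hrt, hd _ _ _ hrg (hφ g hg), fun ξ q hq => key g hg q (ht _ _ _ hq hrg) ξ⟩

end Pool.Agent.UMst
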