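import Pool.Agent.Lib.UMst.Dcd

/-!
# LuA: uniformization at the points of `X`

PROOF. Let `D = DD T V`, `L = LQ pd e`, `LD = leD L D`; `le2 le (fun t a b => Lq pd e univ a b t)` and `L` are definitionally equal (`rfl` after `funext`, or `show`/`change`). `Y = ↥X × ↥X` has `#Y ≤ nu` (`G.kn`, `G.n0`, `Cardinal.mul_le_of_le` or `mul_eq_self`).
`E.red` for `Y` and the name `y ↦ c (y.1.1, y.2.1)` at `t` gives `t1 ≤ t` and `c' : Y → Set ↥D`. `t1 ∈ H`; `w1 = (ρ t1, v t1) ∈ D`. `G.un c' w1` gives `q ≤ w1` in `D` and `f : ↥X → Set ↥D` such that for all `r ≤ q` in `D` and `δ : ↥X` with `Mem LD (nmD D X SN) δ r` there are `s ≤ r`, `b < δ` with, for all `y : ↥X`, `b < y < δ`,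
`Imp LD (Mem LD (nmD2 D X AN) (δ, y)) (Iff' LD (Mem LD f y) (Mem LD c' (δ, y))) s`. `E.gl` for `t1` and `q` gives `t' ∈ H`, `t' ≤ t1`, `ρ t' = q.1`, `v t' = q.2`.
Let `f1 ξ = {h | ∃ (hξ : ξ ∈ X) (w : ↥D), h ∈ H ∧ w.1 = (ρ h, v h) ∧ Mem LD f ⟨ξ, hξ⟩ w}`. (1) For `h ∈ H`, `w : ↥D`, `w.1 = (ρ h, v h)`, `ξ ∈ X`: `Mem le f1 ξ h ↔ Mem LD f ⟨ξ, _⟩ w`: (←) for `h1 ≤ h`: `h1 ∈ H` and its projection `w1` is `≤ w` in `D` (`E.mono`), so `h1 ∈ f1 ξ` (`Mem_down` for `LD`). (→) `Mem_loc` for `LD` (transitive: `Lx_trans H0 hpd univ`; reflexive: `Lx_refl`): for `w1 ≤ w` lift: `E.gl` gives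
`h1 ∈ H`, `h1 ≤ h` with projection `w1`; `Mem le f1 ξ h1` gives `h2 ≤ h1` and `h3 ∈ f1 ξ`, `h2 ≤ h3`; the projection of `h2` is below `w1` and below that of `h3`, where `Mem LD f ξ` holds.
Claim: `t'`, `f1` are as required. Let `δ ∈ X`, `r ≤ t'`, `Mem le (ms H v) (δ, a) r`; show `Unf le f1 c δ a r`: let `r0 ≤ r`. `dcd` for `r0` gives `r1 ≤ r0`, `r1 ∈ H`, `a n ∈ X`, `Mem le (v r1).s (δ, a) (ρ r1)`. Let `w = (ρ r1, v r1) ∈ D`, `w ≤ q` (`E.mono` with `t'`). For every `w' ≤ w` in `D`, `Mem le w'.2.s (δ, a) w'.1` (`Bq w'.2 (v r1) w'.1`, `δ < (v r1).h` by `mem_sel`), so `w' ∈ SN δ`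
and `w' ∈ AN (δ, a n)`; hence `Mem LD (nmD D X SN) ⟨δ, hδ⟩ w` and `Mem LD (nmD2 D X AN) (δ, a n) w'` for `w' ≤ w`. So there are `s ≤ w`, `b < δ`, `b : ↥X`, as above. Lift `s`: `r2 ∈ H`, `r2 ≤ r1` with projection `s`. The answer to `Unf` at `r0`: `r2`, the bound `b.1`. If `b.1 < a n` then (`a n < δ` by `Lim`) at `y = a n`: `Iff' LD (Mem LD f y) (Mem LD c' (δ, y)) s`. For `h ≤ r2` (`h ∈ H`, its projection
`w' ≤ s`): `Mem le f1 (a n) h ↔ Mem LD f (a n) w'` (by (1)) `↔ Mem LD c' (δ, a n) w' ↔ Mem le c (δ, a n) h` (`E.red`, as `h ≤ t1`).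
-/

set_option autoImplicit false
set_option linter.unusedSectionVars false
universe u

namespace Pool.Agent.UMst

open Cardinal Pool.Agent.PolF Pool.Agent.UlM Pool.Agent.UlB Pool.Agent.UTop

variable {P K J : Type u} [LinearOrder K] [WellFoundedLT K] [LinearOrder J] [WellFoundedLT J]
  {le : P → P → Prop} {lam : Cardinal.{u}} {pd : J → Set J}
  {e : J → K × K → Set (P × Cn le lam K J)} {T H : Set P} {V : Set (Cn le lam K J)} {ρ : P → P}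
  {v : P → Cn le lam K J} {X : Set K} {β : K} {nu : Cardinal.{u}}

private theorem lua_tr (H0 : TopH le K lam) (hpd : PdH pd) (p q r : ↥(DD T V))
    (h : leD (LQ pd e) (DD T V) p q) (h' : leD (LQ pd e) (DD T V) q r) :
    leD (LQ pd e) (DD T V) p r :=
  Lx_trans H0 hpd Set.univ (fun _ _ _ _ => trivial) p.1 q.1 r.1 h h'

private theorem lua_rf (H0 : TopH le K lam) (p : ↥(DD T V)) : leD (LQ pd e) (DD T V) p p :=
  Lx_refl H0 Set.univ p.1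

/-- the projection is monotone -/
private theorem lua_mono (E : Ext le (fun t a b => Lq pd e Set.univ a b t) T V H ρ v nu)
    {h h' : P} (hh : h ∈ H) (hle : le h' h) {w w' : ↥(DD T V)} (hw : w.1 = (ρ h, v h))
    (hw' : w'.1 = (ρ h', v h')) : leD (LQ pd e) (DD T V) w' w := by
  obtain ⟨-, h1, h2⟩ := E.mono h hh h' hle
  unfold leD
  rw [hw, hw']
  exact ⟨h1, h2⟩

/-- conditions below the projection lift -/
private theorem lua_lift (E : Ext le (fun t a b => Lq pd e Set.univ a b t) T V H ρ v nu)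
    {h : P} (hh : h ∈ H) {w w' : ↥(DD T V)} (hw : w.1 = (ρ h, v h))
    (hle : leD (LQ pd e) (DD T V) w' w) : ∃ h' ∈ H, le h' h ∧ w'.1 = (ρ h', v h') := by
  unfold leD at hle
  rw [hw] at hle
  obtain ⟨g, h1, h2, h3, h4⟩ := E.gl h hh w'.1.1 w'.2.1 w'.1.2 w'.2.2 hle.1 hle.2
  refine ⟨g, h1, h2, ?_⟩
  rw [h3, h4]

/-- the function on `K` given by a function on `X` -/
private def luaF (pd : J → Set J) (e : J → K × K → Set (P × Cn le lam K J)) (T : Set P)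
    (V : Set (Cn le lam K J)) (H : Set P) (ρ : P → P) (v : P → Cn le lam K J) (X : Set K)
    (f : ↥X → Set ↥(DD T V)) (ξ : K) : Set P :=
  {h | ∃ (hξ : ξ ∈ X) (w : ↥(DD T V)), h ∈ H ∧ w.1 = (ρ h, v h) ∧
    Mem (leD (LQ pd e) (DD T V)) f ⟨ξ, hξ⟩ w}

private theorem lua_key (H0 : TopH le K lam) (hpd : PdH pd)
    (E : Ext le (fun t a b => Lq pd e Set.univ a b t) T V H ρ v nu)
    (f : ↥X → Set ↥(DD T V)) {h : P} (hh : h ∈ H) {w : ↥(DD T V)} (hw : w.1 = (ρ h, v h))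
    {ξ : K} (hξ : ξ ∈ X) : Mem le (luaF pd e T V H ρ v X f) ξ h ↔
      Mem (leD (LQ pd e) (DD T V)) f ⟨ξ, hξ⟩ w := by
  constructor
  · intro hm
    refine Mem_loc (lua_tr H0 hpd) (lua_rf H0) fun w1 hw1 => ?_
    obtain ⟨h1, h1H, h1l, h1w⟩ := lua_lift E hh hw hw1
    obtain ⟨h2, h2l, h3, h3f, h23⟩ := hm h1 h1l
    obtain ⟨hξ', w3, h3H, h3w, h3m⟩ := h3f
    have h2H : h2 ∈ H := (E.mono h1 h1H h2 h2l).1
    refine ⟨⟨(ρ h2, v h2), E.rT h2 h2H, E.vV h2 h2H⟩, lua_mono E h1H h2l h1w rfl, ?_⟩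
    exact Mem_down (lua_tr H0 hpd) (lua_mono E h3H h23 h3w rfl) h3m
  · intro hm h1 h1l
    have h1H : h1 ∈ H := (E.mono h hh h1 h1l).1
    refine ⟨h1, H0.rf h1, h1, ⟨hξ, ⟨(ρ h1, v h1), E.rT h1 h1H, E.vV h1 h1H⟩, h1H, rfl, ?_⟩,
      H0.rf h1⟩
    exact Mem_down (lua_tr H0 hpd) (lua_mono E hh h1l hw rfl) hm

theorem lua (H0 : TopH le K lam) (hpd : PdH pd)
    (E : Ext le (fun t a b => Lq pd e Set.univ a b t) T V H ρ v nu) (G : GX pd e T V X β nu)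
    (c : K × K → Set P) {t : P} (ht : t ∈ H) :
    ∃ t', le t' t ∧ ∃ f : K → Set P, ∀ δ ∈ X, ∀ a r, le r t' → Mem le (ms H v) (δ, a) r →
      Unf le f c δ a r := by
  have hY : #(↥X × ↥X) ≤ nu := by
    rw [Cardinal.mk_prod, Cardinal.lift_id]
    exact Cardinal.mul_le_of_le G.n0 G.kn G.kn
  obtain ⟨t1, ht1, -, -, c', hc'⟩ := E.red (↥X × ↥X) hY (fun y => c (y.1.1, y.2.1)) t ht
  have ht1H : t1 ∈ H := (E.mono t ht t1 ht1).1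
  obtain ⟨q, hq, f, hf⟩ := G.un c' ⟨(ρ t1, v t1), E.rT t1 ht1H, E.vV t1 ht1H⟩
  obtain ⟨t', ht'H, ht', hqt'⟩ := lua_lift E ht1H (w := ⟨(ρ t1, v t1), E.rT t1 ht1H, E.vV t1 ht1H⟩)
    rfl hq
  refine ⟨t', H0.tr _ _ _ ht' ht1, luaF pd e T V H ρ v X f, ?_⟩
  intro δ hδ a r hr hm r0 hr0
  obtain ⟨r1, hr1, hr1H, haX, hm1⟩ := dcd H0 hpd E G hδ (Mem_down H0.tr hr0 hm)
  have hsel := mem_sel H0 hm1
  have hr1t' : le r1 t' := H0.tr _ _ _ hr1 (H0.tr _ _ _ hr0 hr)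
  obtain ⟨w, hw⟩ : ∃ w : ↥(DD T V), w.1 = (ρ r1, v r1) :=
    ⟨⟨(ρ r1, v r1), E.rT r1 hr1H, E.vV r1 hr1H⟩, rfl⟩
  have hwq : leD (LQ pd e) (DD T V) w q := lua_mono E ht'H hr1t' hqt' hw
  have hall : ∀ w' : ↥(DD T V), leD (LQ pd e) (DD T V) w' w → Mem le w'.1.2.s (δ, a) w'.1.1 := by
    intro w' hw'
    unfold leD at hw'
    rw [hw] at hw'
    exact (hw'.2.1.2 δ hsel.2.2.1.le a w'.1.1 (H0.rf _)).2 (Mem_down H0.tr hw'.1 hm1)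
  have hS : Mem (leD (LQ pd e) (DD T V)) (nmD (DD T V) X (SN lam le K J)) ⟨δ, hδ⟩ w := by
    intro w' hw'
    exact ⟨w', lua_rf H0 w', w', ⟨a, hall w' hw'⟩, lua_rf H0 w'⟩
  obtain ⟨s, hs, b, hb, hu⟩ := hf w ⟨δ, hδ⟩ hwq hS
  obtain ⟨r2, hr2H, hr2, hr2w⟩ := lua_lift E hr1H hw hs
  refine ⟨r2, H0.tr _ _ _ hr2 hr1, ⟨b.1, hb⟩, fun n hn h hh => ?_⟩
  have hhH : h ∈ H := (E.mono r2 hr2H h hh).1
  obtain ⟨w', hw'⟩ : ∃ w : ↥(DD T V), w.1 = (ρ h, v h) :=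
    ⟨⟨(ρ h, v h), E.rT h hhH, E.vV h hhH⟩, rfl⟩
  have hw's : leD (LQ pd e) (DD T V) w' s := lua_mono E hr2H hh hr2w hw'
  have hA : Mem (leD (LQ pd e) (DD T V)) (nmD2 (DD T V) X (AN lam le K J))
      (⟨δ, hδ⟩, ⟨a n, haX n⟩) w' := by
    intro w'' hw''
    have h1 := hall w'' (lua_tr H0 hpd _ _ _ hw'' (lua_tr H0 hpd _ _ _ hw's hs))
    exact ⟨w'', lua_rf H0 w'', w'', ⟨a, h1, n, rfl⟩, lua_rf H0 w''⟩
  have h2 := hu ⟨a n, haX n⟩ hn (hsel.2.1.1 n) w' hw's hA w' (lua_rf H0 w')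
  have h3 := lua_key H0 hpd E f hhH hw' (haX n)
  have hht1 : le h t1 := H0.tr _ _ _ hh (H0.tr _ _ _ hr2 (H0.tr _ _ _ hr1t' ht'))
  have h4 := hc' h hht1 w' hw' (⟨δ, hδ⟩, ⟨a n, haX n⟩)
  exact h3.trans (h2.trans h4.symm)

end Pool.Agent.UMst
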