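import Pool.Agent.Lib.UMst.Ms1
import Pool.Agent.Lib.UMst.Glb

/-!
# LuB: uniformization below a point of `X`; globalization

PROOF. `lu_glob`: `glb` with `W t f := ∀ δ ∈ Δ, ∀ a r, le r t → Mem le (ms H v) (δ, a) r → Unf le f c δ a r` gives `f`. Let `δ ∈ Δ`, `Mem le (ms H v) (δ, a) t`. `Unf_loc H0`: let `t1 ≤ t`. `ms_ex` at `t1` gives `t2 ≤ t1`, `t2 ∈ H`; `hl` gives `t3 ≤ t2`, `f'` with `W t3 f'`; `glb` gives `t4 ≤ t3`, `f''` with `W t4 f''`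
and `Iff' le (Mem le f ξ) (Mem le f'' ξ) t4` for all `ξ`. `Unf le f'' c δ a t4` (`Mem le (ms H v) (δ, a) t4` by `Mem_down`), so `Unf le f c δ a t4` by `Unf_congr H0` (with the bound `b = a 0 < δ`: `Lim a δ`, from `ms_ex` and `mem_sel`).
`lub`: `lu_glob` for `Δ = Iio y`. Local: let `t ∈ H`, `z = (ρ t, v t) ∈ DD T V`; `G.hi z y` gives `z' ∈ DD T V`, `LQ z' z`, `y < z'.2.h`; `E.gl` gives `t' ∈ H`, `t' ≤ t`, `ρ t' = z'.1`, `v t' = z'.2`. Let `f` be given by `(v t').lu c`. For `δ < y`, `r ≤ t'`, `Mem le (ms H v) (δ, a) r`: `ms_iff` for `r` and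
`q = v t'` (`Lq univ (v r) (v t') (ρ r)` by `E.mono`, `δ ≤ (v t').h`) gives `Mem le (v t').s (δ, a) r`, so `Unf le f c δ a r`.
-/

set_option autoImplicit false
universe u

namespace Pool.Agent.UMst

open Cardinal Pool.Agent.PolF Pool.Agent.UlM Pool.Agent.UlB Pool.Agent.UTop

variable {P K J : Type u} [LinearOrder K] [WellFoundedLT K] [LinearOrder J] [WellFoundedLT J]
  {le : P → P → Prop} {lam : Cardinal.{u}} {pd : J → Set J}
  {e : J → K × K → Set (P × Cn le lam K J)} {T H : Set P} {V : Set (Cn le lam K J)} {ρ : P → P}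
  {v : P → Cn le lam K J} {X : Set K} {β : K} {nu : Cardinal.{u}}

theorem lu_glob (H0 : TopH le K lam) (hpd : PdH pd)
    (E : Ext le (fun t a b => Lq pd e Set.univ a b t) T V H ρ v nu)
    (c : K × K → Set P) (Δ : Set K) (hl : ∀ t ∈ H, ∃ t', le t' t ∧ ∃ f : K → Set P, ∀ δ ∈ Δ, ∀ a r,
      le r t' → Mem le (ms H v) (δ, a) r → Unf le f c δ a r) :
    ∃ f : K → Set P, ∀ δ ∈ Δ, ∀ a t, Mem le (ms H v) (δ, a) t → Unf le f c δ a t := by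
  obtain ⟨f, hf⟩ := glb H0.rf H0.tr (fun (t : P) (f : K → Set P) => ∀ δ ∈ Δ, ∀ a r,
    le r t → Mem le (ms H v) (δ, a) r → Unf le f c δ a r)
    (fun g g' f hg hW δ hδ a r hr hm => hW δ hδ a r (H0.tr _ _ _ hr hg) hm)
  refine ⟨f, fun δ hδ a t hm => Unf_loc H0 fun t1 ht1 => ?_⟩
  obtain ⟨t2, h21, h2H, h2m⟩ := ms_ex H0 hpd E (Mem_down H0.tr ht1 hm)
  obtain ⟨t3, h32, f', hf'⟩ := hl t2 h2H
  obtain ⟨t4, f'', h43, hf'', hiff⟩ := hf t3 f' hf'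
  have h41 : le t4 t1 := H0.tr _ _ _ h43 (H0.tr _ _ _ h32 h21)
  have hu : Unf le f'' c δ a t4 :=
    hf'' δ hδ a t4 (H0.rf _) (Mem_down H0.tr (H0.tr _ _ _ h41 ht1) hm)
  exact ⟨t4, h41, Unf_congr H0 (b := a 0) ((mem_sel H0 h2m).2.1.1 0) (fun n _ => hiff (a n)) hu⟩

theorem lub (H0 : TopH le K lam) (hpd : PdH pd)
    (E : Ext le (fun t a b => Lq pd e Set.univ a b t) T V H ρ v nu) (G : GX pd e T V X β nu)
    (c : K × K → Set P) {y : K} (hy : y ∈ X) :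
    ∃ f : K → Set P, ∀ δ < y, ∀ a t, Mem le (ms H v) (δ, a) t → Unf le f c δ a t := by
  refine lu_glob H0 hpd E c (Set.Iio y) fun t ht => ?_
  obtain ⟨z', hz', hL, hy'⟩ := G.hi (ρ t, v t) ⟨E.rT t ht, E.vV t ht⟩ y hy
  obtain ⟨g, hg, hgt, hρ, hv⟩ := E.gl t ht z'.1 hz'.1 z'.2 hz'.2 hL.1 hL.2
  obtain ⟨f, hf⟩ := (v g).lu c
  refine ⟨g, hgt, f, fun δ hδ a r hr hm => ?_⟩
  obtain ⟨hrH, -, hrL⟩ := E.mono g hg r hr
  have h1 : δ ≤ (v g).h := by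
    rw [hv]
    exact (lt_trans (Set.mem_Iio.1 hδ) hy').le
  exact hf δ a r ((ms_iff H0 hpd E hrH hrL h1).1 hm)

end Pool.Agent.UMst
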