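import Pool.Agent.Lib.UMst.LuA
import Pool.Agent.Lib.UMst.LuB

/-!
# LuC: uniformization for the master condition

PROOF. `lu_glob` and `lua` give `f1` for `Δ = X`. For `y ∈ X` let `fy` be given by `lub` (choose a function `φ : K → K → Set P` with the property for `y ∈ X`). For `ξ : K` let `N ξ` be the least element of `X` above `ξ` if there is one (classical choice: e.g. `WellFounded.min` of `{y ∈ X | ξ < y}`), arbitrary otherwise. `f ξ = f1 ξ` if `ξ ∈ X`, else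
`φ (N ξ) ξ`. Let `Mem le (ms H v) (δ, a) t`; by `Unf_loc H0` and `Mem_down` we may pass to `t' ≤ t` at any moment. `ms_ex` and `mem_sel` give `StrictMono a`, `Lim a δ`, and `δ < (v t').h ∈ X`, so `δ < β`.
CASE `δ ∈ X`: `dcd` at any `t1 ≤ t` gives `a n ∈ X` for all `n`, so `f (a n) = f1 (a n)`, and `Unf_congr H0` (bound `a 0`) from `Unf le f1 c δ a t`.
CASE `δ ∉ X`: there is `b < δ` with no point of `X` in `(b, δ)`: otherwise choose `u n ∈ X` with `a n < u n < δ`; `Lim u δ`, so `δ ∈ X` by `G.om`. Let `y` = the least element of `X` above `δ` (`G.bc`, `δ < β`). For `b < ξ < δ`: `ξ ∉ X` and the least element of `X` above `ξ` is `y` (it is not in `(b, δ)`, not `δ`), so `f ξ = φ y ξ`. `Unf le (φ y) c δ a t` (`δ < y`), so `Unf le f c δ a t` by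
`Unf_congr H0` with the bound `b` (values at `a n`, `b < a n < δ`).
-/

set_option autoImplicit false
universe u

namespace Pool.Agent.UMst

open Cardinal Pool.Agent.PolF Pool.Agent.UlM Pool.Agent.UlB Pool.Agent.UTop

variable {P K J : Type u} [LinearOrder K] [WellFoundedLT K] [LinearOrder J] [WellFoundedLT J]
  {le : P → P → Prop} {lam : Cardinal.{u}} {pd : J → Set J}
  {e : J → K × K → Set (P × Cn le lam K J)} {T H : Set P} {V : Set (Cn le lam K J)} {ρ : P → P}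
  {v : P → Cn le lam K J} {X : Set K} {β : K} {nu : Cardinal.{u}}

theorem luc (H0 : TopH le K lam) (hpd : PdH pd)
    (E : Ext le (fun t a b => Lq pd e Set.univ a b t) T V H ρ v nu) (G : GX pd e T V X β nu)
    (c : K × K → Set P) :
    ∃ f : K → Set P, ∀ δ a t, Mem le (ms H v) (δ, a) t → Unf le f c δ a t := by
  classical
  have hcg : ∀ (g g' : K → Set P) (ξ : K) (t : P), g ξ = g' ξ →
      Iff' le (Mem le g ξ) (Mem le g' ξ) t := fun g g' ξ t h q _ => by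
    unfold Mem
    rw [h]
  obtain ⟨f1, hf1⟩ := lu_glob H0 hpd E c X (fun t ht => by
    obtain ⟨t', ht', f, hf⟩ := lua H0 hpd E G c ht
    exact ⟨t', ht', f, hf⟩)
  have hphi : ∀ y : K, ∃ f : K → Set P, y ∈ X → ∀ δ < y, ∀ a t,
      Mem le (ms H v) (δ, a) t → Unf le f c δ a t := by
    intro y
    by_cases hy : y ∈ X
    · obtain ⟨f, hf⟩ := lub H0 hpd E G c hy
      exact ⟨f, fun _ => hf⟩
    · exact ⟨fun _ => ∅, fun h => absurd h hy⟩
  choose φ hφ using hphi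
  have hN : ∀ ξ : K, ∃ y : K, (∃ z ∈ X, ξ < z) → (y ∈ X ∧ ξ < y ∧ ∀ z ∈ X, ξ < z → y ≤ z) := by
    intro ξ
    by_cases h : ∃ z ∈ X, ξ < z
    · have hS : {z | z ∈ X ∧ ξ < z}.Nonempty := by
        obtain ⟨z, hz, hz'⟩ := h
        exact ⟨z, hz, hz'⟩
      exact ⟨wellFounded_lt.min _ hS, fun _ => ⟨(WellFounded.min_mem _ _ hS).1,
        (WellFounded.min_mem _ _ hS).2, fun z hz hz' => not_lt.1
          (WellFounded.not_lt_min _ _ (show z ∈ {z | z ∈ X ∧ ξ < z} from ⟨hz, hz'⟩))⟩⟩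
    · exact ⟨ξ, fun h' => absurd h' h⟩
  choose N hN using hN
  refine ⟨fun ξ => if ξ ∈ X then f1 ξ else φ (N ξ) ξ, fun δ a t hm => ?_⟩
  refine Unf_loc H0 (fun t1 ht1 => ?_)
  obtain ⟨t2, ht2, ht2H, hm2⟩ := ms_ex H0 hpd E (Mem_down H0.tr ht1 hm)
  have hm2' : Mem le (ms H v) (δ, a) t2 := Mem_down H0.tr (H0.tr _ _ _ ht2 ht1) hm
  obtain ⟨ham, hal, hδh, -⟩ := mem_sel H0 hm2
  by_cases hδ : δ ∈ X
  · obtain ⟨t3, ht3, ht3H, haX, -⟩ := dcd H0 hpd E G hδ hm2'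
    refine ⟨t3, H0.tr _ _ _ ht3 ht2, ?_⟩
    refine Unf_congr H0 (f := f1) (b := a 0) (hal.1 0) (fun n hn => hcg _ _ _ _ ?_)
      (hf1 δ hδ a t3 (Mem_down H0.tr ht3 hm2'))
    exact if_pos (haX n)
  · have hb : ∃ b < δ, ∀ x ∈ X, ¬ (b < x ∧ x < δ) := by
      by_contra hcon
      push Not at hcon
      choose u hu1 hu2 hu3 using fun n => hcon (a n) (hal.1 n)
      refine hδ (G.om u δ ⟨hu3, fun x hx => ?_⟩ hu1)
      obtain ⟨n, hn⟩ := hal.2 x hx
      exact ⟨n, hn.trans (hu2 n)⟩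
    obtain ⟨b, hbδ, hbX⟩ := hb
    have hδβ : δ < β := hδh.trans (G.lt _ (G.hg _ (E.vV _ ht2H)))
    obtain ⟨z0, hz0, hz0'⟩ := G.bc δ hδβ
    obtain ⟨hy1, hy2, hy3⟩ := hN δ ⟨z0, hz0, hz0'⟩
    have heq : ∀ ξ, b < ξ → ξ < δ → (if ξ ∈ X then f1 ξ else φ (N ξ) ξ) = φ (N δ) ξ := by
      intro ξ h1 h2
      have hξX : ξ ∉ X := fun h => hbX ξ h ⟨h1, h2⟩
      have hNξ : N ξ = N δ := by
        obtain ⟨k1, k2, k3⟩ := hN ξ ⟨z0, hz0, h2.trans hz0'⟩
        apply le_antisymm (k3 _ hy1 (h2.trans hy2))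
        apply hy3 _ k1
        rcases lt_trichotomy (N ξ) δ with h | h | h
        · exact absurd ⟨h1.trans k2, h⟩ (hbX _ k1)
        · exact absurd (h ▸ k1) hδ
        · exact h
      rw [if_neg hξX, hNξ]
    exact ⟨t2, ht2, Unf_congr H0 (f := φ (N δ)) hbδ
      (fun n hn => hcg _ _ _ _ (heq _ hn (hal.1 n))) (hφ (N δ) hy1 δ hy2 a t2 hm2')⟩

end Pool.Agent.UMst
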