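import Pool.Agent.Lib.UMst.LuC

/-!
# Mcx: the master condition exists

PROOF. The fields of `Cn`: `h = β`, `cl = {β}`, `s = ms H v`, `sp = msp V`, `F = mF H v`. `cld`: `x` with a smaller element and `∀ y < x, ∃ z ∈ {β}, y < z ∧ z < x`: then `β < x`, and `y = β` gives `β < β`. `sel`: `t ∈ ms H v (δ, a)`: `mem_sel H0` for `v t`: `StrictMono a`, `Lim a δ`, `δ < (v t).h < β` (`E.vV`, `G.hg`, `G.lt`), so `δ ∉ {β}`.
`inc`: let `Mem le (ms H v) (δ, a) t`, `Mem le (ms H v) (δ, b) t`. `ms_ex` (first) gives `t1 ≤ t`, `t1 ∈ H`, `Mem (v t1).s (δ, a) t1`; `ms_iff` at `t1` for `q = v t1` (`Lq_refl H0`, `δ < (v t1).h`) gives `Mem (v t1).s (δ, b) t1`; `(v t1).inc`. `hs`: the set is contained in `⋃ q : V, {x | (q.s x).Nonempty}` (`Mem` at `t` gives an element of `(v t).s x`),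
a union of `≤ lam` sets of size `≤ lam` (`G.cV`, `Cn.hs`, `H0.inf`; as in `UTop/Glu.lean`). `hsp`: likewise. `out`: `t ∈ mF H v γ ξ`: `γ ∈ (v t).sp ⊆ msp V`, `ξ < (v t).h < β`. `lu`: `luc`.
-/

set_option autoImplicit false
universe u

namespace Pool.Agent.UMst

open Cardinal Pool.Agent.PolF Pool.Agent.UlM Pool.Agent.UlB Pool.Agent.UTop

variable {P K J : Type u} [LinearOrder K] [WellFoundedLT K] [LinearOrder J] [WellFoundedLT J]
  {le : P → P → Prop} {lam : Cardinal.{u}} {pd : J → Set J}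
  {e : J → K × K → Set (P × Cn le lam K J)} {T H : Set P} {V : Set (Cn le lam K J)} {ρ : P → P}
  {v : P → Cn le lam K J} {X : Set K} {β : K} {nu : Cardinal.{u}}

theorem ex_m (H0 : TopH le K lam) (hpd : PdH pd)
    (E : Ext le (fun t a b => Lq pd e Set.univ a b t) T V H ρ v nu) (G : GX pd e T V X β nu) :
    ∃ m : Cn le lam K J, m.h = β ∧ m.s = ms H v ∧ m.sp = msp V ∧ m.F = mF H v := by
  have hlt : ∀ t ∈ H, (v t).h < β := fun t ht => G.lt _ (G.hg _ (E.vV t ht))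
  have hcard : #{x // (ms H v x).Nonempty} ≤ lam := by
    have h1 : {x | (ms H v x).Nonempty} ⊆ ⋃ q : ↥V, {x | (q.1.s x).Nonempty} := by
      rintro x ⟨t, ht, hm⟩
      obtain ⟨r, -, y, hy, -⟩ := hm t (H0.rf t)
      exact Set.mem_iUnion.2 ⟨⟨v t, E.vV t ht⟩, y, hy⟩
    calc #{x // (ms H v x).Nonempty} = #({x | (ms H v x).Nonempty} : Set (K × (ℕ → K))) := rfl
      _ ≤ #(⋃ q : ↥V, {x | (q.1.s x).Nonempty} : Set (K × (ℕ → K))) :=
        Cardinal.mk_le_mk_of_subset h1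
      _ ≤ Cardinal.sum fun q : ↥V => #({x | (q.1.s x).Nonempty} : Set (K × (ℕ → K))) :=
        Cardinal.mk_iUnion_le_sum_mk
      _ ≤ Cardinal.sum fun _ : ↥V => lam := Cardinal.sum_le_sum _ _ fun q => q.1.hs
      _ = #↥V * lam := by rw [Cardinal.sum_const']
      _ ≤ lam * lam := mul_le_mul_left G.cV lam
      _ = lam := Cardinal.mul_eq_self H0.inf.le
  have hsp : #(msp V) ≤ lam := by
    calc #(msp V) = #(⋃ q : ↥V, q.1.sp : Set J) := rfl
      _ ≤ Cardinal.sum fun q : ↥V => #(q.1.sp) := Cardinal.mk_iUnion_le_sum_mk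
      _ ≤ Cardinal.sum fun _ : ↥V => lam := Cardinal.sum_le_sum _ _ fun q => q.1.hsp
      _ = #↥V * lam := by rw [Cardinal.sum_const']
      _ ≤ lam * lam := mul_le_mul_left G.cV lam
      _ = lam := Cardinal.mul_eq_self H0.inf.le
  refine ⟨⟨β, {β}, ms H v, msp V, mF H v, rfl, fun x hx => le_of_eq hx, ?_, ?_, ?_, hcard, hsp,
    ?_, luc H0 hpd E G⟩, rfl, rfl, rfl, rfl⟩
  · rintro x ⟨y, hy⟩ hx
    exfalso
    obtain ⟨z, hz, h1, h2⟩ := hx y hy
    have hz' : z = β := hz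
    subst hz'
    obtain ⟨z', hz', h3, h4⟩ := hx z h2
    have hz'' : z' = z := hz'
    rw [hz''] at h3
    exact lt_irrefl _ h3
  · rintro δ a ⟨t, ht, hm⟩
    obtain ⟨h1, h2, h3, -⟩ := mem_sel H0 hm
    have h4 : δ < β := h3.trans (hlt t ht)
    exact ⟨h1, h2, h4, fun h5 => absurd h4 (by rw [show δ = β from h5]; exact lt_irrefl _)⟩
  · intro δ a b t ha hb
    obtain ⟨t1, ht1, hH, hm⟩ := ms_ex H0 hpd E ha
    have h1 : δ ≤ (v t1).h := (mem_sel H0 hm).2.2.1.le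
    have h2 : Mem le (ms H v) (δ, b) t1 := Mem_down H0.tr ht1 hb
    have h3 := (ms_iff H0 hpd E hH (Lq_refl H0 _ _ _) h1).1 h2
    exact (v t1).inc δ a b t1 hm h3
  · rintro γ ξ ⟨t, ht, h1, h2, -⟩
    exact ⟨Set.mem_iUnion.2 ⟨⟨v t, E.vV t ht⟩, h1⟩, h2.trans (hlt t ht)⟩

end Pool.Agent.UMst
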