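import Pool.Agent.Lib.UMst.Ms1

/-!
# Mle: the master condition is below every element of the generic filter

PROOF. `Bq m (v t) t`: `(v t).h ≤ β` (`G.hg`, `G.lt`); for `δ ≤ (v t).h` and `t' ≤ t`: `ms_iff` at `t'` with `q = v t` (`E.mono`). By well-founded induction on `γ`: for all `t ∈ H` with `γ ∈ (v t).sp`, `Cq (Ob pd e γ) γ m (v t) t`. First clause: `γ ∈ msp V`. Second: `mF_iff` at `t' ≤ t` with `q = v t`. Third: let `(v t).h < δ`, `t' ≤ t`,
`Mem le m.s (δ, a) t'`. `Ob_loc H0 hpd`: let `t1 ≤ t'`; `ms_ex` (`Mem_down`) gives `t2 ≤ t1`, `t2 ∈ H`, `Mem le (v t2).s (δ, a) t2`. `Cq (Ob pd e γ) γ (v t2) (v t) (ρ t2)` (`E.mono` for `t2 ≤ t`) gives `γ ∈ (v t2).sp` and, by its third clause at `t2 ≤ ρ t2` (`E.rl`), `Ob pd e γ t2 (v t2) δ a`. `Ob_congr H0 hpd` from `v t2` to `m` at `t2`: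
`Lq pd e (pd γ) m (v t2) t2`: `Bq` as above and `Cq` for `i ∈ pd γ` (`i < γ` by `hpd.lt`, induction hypothesis at `t2`); `hF`: for `t3 ≤ t2`, `mF_iff` at `t3` with `q = v t2` (`a n < δ < (v t2).h` by `mem_sel`).
-/

set_option autoImplicit false
universe u

namespace Pool.Agent.UMst

open Cardinal Pool.Agent.PolF Pool.Agent.UlM Pool.Agent.UlB Pool.Agent.UTop

variable {P K J : Type u} [LinearOrder K] [WellFoundedLT K] [LinearOrder J] [WellFoundedLT J]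
  {le : P → P → Prop} {lam : Cardinal.{u}} {pd : J → Set J}
  {e : J → K × K → Set (P × Cn le lam K J)} {T H : Set P} {V : Set (Cn le lam K J)} {ρ : P → P}
  {v : P → Cn le lam K J} {X : Set K} {β : K} {nu : Cardinal.{u}}

theorem m_le (H0 : TopH le K lam) (hpd : PdH pd)
    (E : Ext le (fun t a b => Lq pd e Set.univ a b t) T V H ρ v nu) (G : GX pd e T V X β nu)
    {m : Cn le lam K J} (hh : m.h = β) (hms : m.s = ms H v) (hsp : m.sp = msp V)
    (hF : m.F = mF H v) {t : P} (ht : t ∈ H) : Lq pd e Set.univ m (v t) t := by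
  have hB : ∀ t ∈ H, Bq m (v t) t := by
    intro t ht
    refine ⟨?_, fun δ hδ a s hs => ?_⟩
    · rw [hh]
      exact (G.lt _ (G.hg (v t) (E.vV t ht))).le
    · obtain ⟨h1, h2, h3⟩ := E.mono t ht s hs
      have h4 := ms_iff H0 hpd E h1 h3 hδ (a := a)
      rw [hms]
      exact h4
  have key : ∀ γ : J, ∀ t ∈ H, γ ∈ (v t).sp → Cq (Ob pd e γ) γ m (v t) t := by
    intro γ
    induction γ using WellFoundedLT.induction with
    | ind γ ih =>
    intro t ht hγ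
    have hFi : ∀ t ∈ H, γ ∈ (v t).sp → ∀ ξ < (v t).h,
        Iff' le (Mem le (m.F γ) ξ) (Mem le ((v t).F γ) ξ) t := by
      intro t ht hγ ξ hξ s hs
      obtain ⟨h1, h2, h3⟩ := E.mono t ht s hs
      have h4 := mF_iff H0 hpd E h1 h3 hγ hξ
      rw [hF]
      exact h4
    refine ⟨?_, hFi t ht hγ, ?_⟩
    · rw [hsp]
      exact Set.mem_iUnion.2 ⟨⟨v t, E.vV t ht⟩, hγ⟩
    · intro δ a hδ t' ht' hm
      refine Ob_loc H0 hpd fun t1 ht1 => ?_
      rw [hms] at hm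
      have hm1 : Mem le (ms H v) (δ, a) t1 := fun s hs => hm s (H0.tr _ _ _ hs ht1)
      obtain ⟨t2, ht2, ht2H, hm2⟩ := ms_ex H0 hpd E hm1
      refine ⟨t2, ht2, ?_⟩
      have ht2t : le t2 t := H0.tr _ _ _ ht2 (H0.tr _ _ _ ht1 ht')
      obtain ⟨-, -, h3⟩ := E.mono t ht t2 ht2t
      obtain ⟨h4, -, h5⟩ := h3.2 γ (Set.mem_univ _) hγ
      have h6 : Ob pd e γ t2 (v t2) δ a := h5 δ a hδ t2 (E.rl t2 ht2H) hm2
      obtain ⟨-, ⟨h7, -⟩, h8, -⟩ := mem_sel H0 hm2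
      refine Ob_congr H0 hpd ⟨hB t2 ht2H, fun i hi his => ih i (hpd.lt γ i hi) t2 ht2H his⟩
        (fun n => hFi t2 ht2H h4 (a n) ((h7 n).trans h8)) h6
  exact ⟨hB t ht, fun i _ hi => key i t ht hi⟩

end Pool.Agent.UMst
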