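import Pool.Agent.Lib.UMst.Defs
import Pool.Agent.Lib.UTop.Sel

/-!
# Ms1: the generic condition, key lemma

`ms H v` is the part `s` of the master condition, `mF H v` its functions, `msp V` its coordinates.

PROOF. `Bq q p t` is the first clause of `Lq`. Everything goes down: `Lq_down H0`, `Mem_down H0.tr`. For `t' ≤ t ∈ H`: `t' ∈ H`, `Lq univ (v t') (v t) (ρ t')` (`E.mono`), and at `t'` too (`E.rl`).
`ms_iff`: (→) `Mem_loc H0.tr H0.rf`: let `t1 ≤ t`. There are `t2 ≤ t1`, `t3 ∈ ms H v (δ, a)` with `t2 ≤ t3`; `Mem (v t3).s (δ, a)` holds at `t3`, so at `t2`; `δ < (v t3).h` (`mem_sel H0`), so `Mem (v t2).s (δ, a) t2` (`Bq (v t2) (v t3)` at `t2`), and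
`Mem q.s (δ, a) t2` (`Lq univ (v t2) q` at `t2` by `Lq_trans` (DC of univ) from `Lq (v t2) (v t) (ρ t2)` and `Lq (v t) q (ρ t)`, `δ ≤ q.h`). (←) for `t1 ≤ t`: `t1 ∈ H`, `Mem q.s (δ, a) t1`, so `Mem (v t1).s (δ, a) t1` (`Bq (v t1) q`), so `t1 ∈ ms H v (δ, a)`; take `r = a = t1` (`H0.rf`).
`mF_iff`: the same with the second clause of `Cq (Ob pd e γ) γ (v t2) (v t3)` (`γ ∈ (v t3).sp`, `ξ < (v t3).h`) and of `Cq .. γ (v t2) q` (`γ ∈ q.sp`, `ξ < q.h`); (←) `γ ∈ (v t1).sp` (first clause of `Cq`), `ξ < q.h ≤ (v t1).h`.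
`ms_ex`: `Mem` at `t` itself gives `r ≤ t`, `t3 ∈ ms H v (δ, a)`, `r ≤ t3`; `r ∈ H`; `Mem (v t3).s (δ, a) r`, `δ < (v t3).h`, `Bq (v r) (v t3)` at `r`.
-/

set_option autoImplicit false
universe u

namespace Pool.Agent.UMst

open Cardinal Pool.Agent.PolF Pool.Agent.UlM Pool.Agent.UlB Pool.Agent.UTop

variable {P K J : Type u} [LinearOrder K] [WellFoundedLT K] [LinearOrder J] [WellFoundedLT J]
  {le : P → P → Prop} {lam : Cardinal.{u}} {pd : J → Set J}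
  {e : J → K × K → Set (P × Cn le lam K J)} {T H : Set P} {V : Set (Cn le lam K J)} {ρ : P → P}
  {v : P → Cn le lam K J} {X : Set K} {β : K} {nu : Cardinal.{u}}

/-- the part `s` of the master condition -/
def ms (H : Set P) (v : P → Cn le lam K J) (x : K × (ℕ → K)) : Set P :=
  {t | t ∈ H ∧ Mem le (v t).s x t}

/-- the functions of the master condition -/
def mF (H : Set P) (v : P → Cn le lam K J) (γ : J) (ξ : K) : Set P :=
  {t | t ∈ H ∧ γ ∈ (v t).sp ∧ ξ < (v t).h ∧ Mem le ((v t).F γ) ξ t}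

/-- the coordinates of the master condition -/
def msp (V : Set (Cn le lam K J)) : Set J := ⋃ q : ↥V, q.1.sp

private theorem ms1_A (H0 : TopH le K lam)
    (E : Ext le (fun t a b => Lq pd e Set.univ a b t) T V H ρ v nu)
    {t t' : P} (ht : t ∈ H) (h : le t' t) : Lq pd e Set.univ (v t') (v t) t' :=
  Lq_down H0 (E.rl t' (E.mono t ht t' h).1) (E.mono t ht t' h).2.2

private theorem ms1_B (H0 : TopH le K lam) (hpd : PdH pd)
    (E : Ext le (fun t a b => Lq pd e Set.univ a b t) T V H ρ v nu)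
    {t t' : P} (ht : t ∈ H) {q : Cn le lam K J} (hq : Lq pd e Set.univ (v t) q (ρ t))
    (h : le t' t) : Lq pd e Set.univ (v t') q t' :=
  Lq_trans H0 hpd (fun _ _ _ _ => Set.mem_univ _) (ms1_A H0 E ht h)
    (Lq_down H0 (H0.tr _ _ _ h (E.rl t ht)) hq)

private theorem ms1_C (H0 : TopH le K lam)
    (E : Ext le (fun t a b => Lq pd e Set.univ a b t) T V H ρ v nu)
    {δ : K} {a : ℕ → K} {t3 t2 : P} (h3 : t3 ∈ ms H v (δ, a)) (h : le t2 t3) :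
    t2 ∈ H ∧ Mem le (v t2).s (δ, a) t2 := by
  obtain ⟨h1, h2⟩ := h3
  have h4 : Mem le (v t3).s (δ, a) t2 := Mem_down H0.tr h h2
  have h5 : δ ≤ (v t3).h := (mem_sel H0 h2).2.2.1.le
  exact ⟨(E.mono t3 h1 t2 h).1, ((ms1_A H0 E h1 h).1.2 δ h5 a t2 (H0.rf t2)).2 h4⟩

theorem ms_iff (H0 : TopH le K lam) (hpd : PdH pd)
    (E : Ext le (fun t a b => Lq pd e Set.univ a b t) T V H ρ v nu)
    {t : P} (ht : t ∈ H) {q : Cn le lam K J} (hq : Lq pd e Set.univ (v t) q (ρ t)) {δ : K}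
    (hδ : δ ≤ q.h) {a : ℕ → K} : Mem le (ms H v) (δ, a) t ↔ Mem le q.s (δ, a) t := by
  constructor
  · intro hm
    refine Mem_loc H0.tr H0.rf fun t1 ht1 => ?_
    obtain ⟨t2, ht2, t3, ht3, h23⟩ := hm t1 ht1
    have h1 := (ms1_C H0 E ht3 h23).2
    have h2 := ms1_B H0 hpd E ht hq (H0.tr _ _ _ ht2 ht1)
    exact ⟨t2, ht2, (h2.1.2 δ hδ a t2 (H0.rf t2)).1 h1⟩
  · intro hm t1 ht1
    have h2 := ms1_B H0 hpd E ht hq ht1
    have h3 : Mem le q.s (δ, a) t1 := Mem_down H0.tr ht1 hm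
    exact ⟨t1, H0.rf t1, t1, ⟨(E.mono t ht t1 ht1).1, (h2.1.2 δ hδ a t1 (H0.rf t1)).2 h3⟩,
      H0.rf t1⟩

theorem mF_iff (H0 : TopH le K lam) (hpd : PdH pd)
    (E : Ext le (fun t a b => Lq pd e Set.univ a b t) T V H ρ v nu)
    {t : P} (ht : t ∈ H) {q : Cn le lam K J} (hq : Lq pd e Set.univ (v t) q (ρ t)) {γ : J}
    (hγ : γ ∈ q.sp) {ξ : K} (hξ : ξ < q.h) : Mem le (mF H v γ) ξ t ↔ Mem le (q.F γ) ξ t := by
  constructor
  · intro hm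
    refine Mem_loc H0.tr H0.rf fun t1 ht1 => ?_
    obtain ⟨t2, ht2, t3, ⟨h3, h4, h5, h6⟩, h23⟩ := hm t1 ht1
    have h7 : Mem le ((v t3).F γ) ξ t2 := Mem_down H0.tr h23 h6
    have h8 := ((ms1_A H0 E h3 h23).2 γ (Set.mem_univ γ) h4).2.1 ξ h5 t2 (H0.rf t2)
    have h9 := ((ms1_B H0 hpd E ht hq (H0.tr _ _ _ ht2 ht1)).2 γ (Set.mem_univ γ) hγ).2.1 ξ hξ
      t2 (H0.rf t2)
    exact ⟨t2, ht2, h9.1 (h8.2 h7)⟩
  · intro hm t1 ht1
    have h2 := ms1_B H0 hpd E ht hq ht1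
    have h3 : Mem le (q.F γ) ξ t1 := Mem_down H0.tr ht1 hm
    have h4 := h2.2 γ (Set.mem_univ γ) hγ
    exact ⟨t1, H0.rf t1, t1, ⟨(E.mono t ht t1 ht1).1, h4.1, hξ.trans_le h2.1.1,
      (h4.2.1 ξ hξ t1 (H0.rf t1)).2 h3⟩, H0.rf t1⟩

theorem ms_ex (H0 : TopH le K lam) (hpd : PdH pd)
    (E : Ext le (fun t a b => Lq pd e Set.univ a b t) T V H ρ v nu)
    {t : P} {δ : K} {a : ℕ → K} (h : Mem le (ms H v) (δ, a) t) :
    ∃ t', le t' t ∧ t' ∈ H ∧ Mem le (v t').s (δ, a) t' := by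
  obtain ⟨r, hr, t3, ht3, hrt⟩ := h t (H0.rf t)
  obtain ⟨h1, h2⟩ := ms1_C H0 E ht3 hrt
  exact ⟨r, hr, h1, h2⟩

end Pool.Agent.UMst
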