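import Pool.Agent.Lib.UMst.Mcx
import Pool.Agent.Lib.UMst.Mle
import Pool.Agent.Lib.UMst.Cl1
import Pool.Agent.Lib.UMst.Cl2
import Pool.Agent.Lib.UMst.Cl3

/-!
# Mst: the reflection clause, abstract form
-/

set_option autoImplicit false
universe u

namespace Pool.Agent.UMst

open Cardinal Pool.Agent.PolF Pool.Agent.UlM Pool.Agent.UlB Pool.Agent.UTop

variable {P K J : Type u} [LinearOrder K] [WellFoundedLT K] [LinearOrder J] [WellFoundedLT J]
  {le : P → P → Prop} {lam : Cardinal.{u}} {pd : J → Set J}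
  {e : J → K × K → Set (P × Cn le lam K J)} {T H : Set P} {V : Set (Cn le lam K J)} {ρ : P → P}
  {v : P → Cn le lam K J} {X : Set K} {β : K} {nu : Cardinal.{u}}

/-- the master condition forces that `β ∈ C`, that `β` does not have cofinality `ω`, and that `S ∩ β` is
stationary in `β` -/
theorem rfl_gx (H0 : TopH le K lam) (hpd : PdH pd)
    (E : Ext le (fun t a b => Lq pd e Set.univ a b t) T V H ρ v nu) (G : GX pd e T V X β nu)
    (hs : SgC (LQ pd e)) {w0 : K} (h0 : LimI w0) (h0' : ∀ t < w0, ¬ LimI t)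
    {C : K → Set (P × Cn le lam K J)} {p : P × Cn le lam K J}
    (hC : FClub (LQ pd e) C Set.univ p)
    (hcl : ∀ z ∈ DD T V, LQ pd e z p → ∀ y ∈ X, ∃ z' ∈ DD T V, LQ pd e z' z ∧ ∃ y' ∈ X, y < y' ∧
      Mem (LQ pd e) C y' z')
    {g : P} (hg : g ∈ H) (hp : (ρ g, v g) = p) :
    ∃ m : Cn le lam K J, LQ pd e (g, m) p ∧ LimI β ∧ Mem (LQ pd e) C β (g, m) ∧
      FNcof (LQ pd e) (Set.Iio w0) β (g, m) ∧ FStat (LQ pd e) (SN lam le K J) (Set.Iio β) (g, m) := by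
  obtain ⟨m, hh, hms, hsp, hF⟩ := ex_m H0 hpd E G
  have hm : ∀ t ∈ H, Lq pd e Set.univ m (v t) t := fun t ht =>
    m_le H0 hpd E G hh hms hsp hF ht
  obtain ⟨h1, h2, h3⟩ := cl1 H0 hpd E G hm hC hcl hg hp
  exact ⟨m, h1, h2, h3, cl2 H0 hpd G hs h0 h0' (g, m), cl3 H0 hpd E G hs hm hg⟩

end Pool.Agent.UMst
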