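import Pool.Agent.Lib.UMst.Defs
import Pool.Agent.Lib.UTop.Sel

/-!
# Prj: projection and lifting of conditions

`hm` is the conclusion of `m_le`. PROOF. `prj`: `r.1 ≤ t0` so `r.1 ∈ H` (`E.mono`); `(ρ r.1, v r.1) ∈ DD T V` (`E.rT`, `E.vV`); `le r.1 (ρ r.1)` (`E.rl`), `Lq univ r.2 m r.1`, `Lq univ m (v r.1) r.1` (`hm`), `Lq_trans H0 hpd`. `prj_mono`: `E.mono`. `lft`: `E.gl` for `r.1` and `w` gives `g ∈ H`; `r' = (g, r.2)` (`Lq_refl H0`).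
-/

set_option autoImplicit false
universe u

namespace Pool.Agent.UMst

open Cardinal Pool.Agent.PolF Pool.Agent.UlM Pool.Agent.UlB Pool.Agent.UTop

variable {P K J : Type u} [LinearOrder K] [WellFoundedLT K] [LinearOrder J] [WellFoundedLT J]
  {le : P → P → Prop} {lam : Cardinal.{u}} {pd : J → Set J}
  {e : J → K × K → Set (P × Cn le lam K J)} {T H : Set P} {V : Set (Cn le lam K J)} {ρ : P → P}
  {v : P → Cn le lam K J} {X : Set K} {β : K} {nu : Cardinal.{u}}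

theorem prj (H0 : TopH le K lam) (hpd : PdH pd)
    (E : Ext le (fun t a b => Lq pd e Set.univ a b t) T V H ρ v nu)
    {m : Cn le lam K J} (hm : ∀ t ∈ H, Lq pd e Set.univ m (v t) t) {t0 : P} (ht : t0 ∈ H)
    {r : P × Cn le lam K J} (hr : LQ pd e r (t0, m)) :
    r.1 ∈ H ∧ (ρ r.1, v r.1) ∈ DD T V ∧ LQ pd e r (ρ r.1, v r.1) := by
  have h1 : r.1 ∈ H := (E.mono t0 ht r.1 hr.1).1
  exact ⟨h1, ⟨E.rT _ h1, E.vV _ h1⟩, E.rl _ h1,
    Lq_trans H0 hpd (fun _ _ => Set.subset_univ _) hr.2 (hm _ h1)⟩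

theorem prj_mono (H0 : TopH le K lam) (hpd : PdH pd)
    (E : Ext le (fun t a b => Lq pd e Set.univ a b t) T V H ρ v nu)
    {r r' : P × Cn le lam K J} (hr : r.1 ∈ H) (h : LQ pd e r' r) :
    r'.1 ∈ H ∧ LQ pd e (ρ r'.1, v r'.1) (ρ r.1, v r.1) := by
  exact ⟨(E.mono r.1 hr r'.1 h.1).1, (E.mono r.1 hr r'.1 h.1).2⟩

theorem lft (H0 : TopH le K lam) (hpd : PdH pd)
    (E : Ext le (fun t a b => Lq pd e Set.univ a b t) T V H ρ v nu)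
    {r : P × Cn le lam K J} (hr : r.1 ∈ H) {w : P × Cn le lam K J} (hw : w ∈ DD T V)
    (h : LQ pd e w (ρ r.1, v r.1)) :
    ∃ r', LQ pd e r' r ∧ r'.1 ∈ H ∧ (ρ r'.1, v r'.1) = w := by
  obtain ⟨g, hg, h1, h2, h3⟩ := E.gl r.1 hr w.1 hw.1 w.2 hw.2 h.1 h.2
  exact ⟨(g, r.2), ⟨h1, Lq_refl H0 _ _ _⟩, hg, Prod.ext h2 h3⟩

end Pool.Agent.UMst
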