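import Pool.Agent.Lib.UMst.Defs
import Pool.Agent.Lib.UTop.Ama
import Pool.Agent.Lib.UTop.Dec

/-!
# Trd: reduction of names over `Q` to names over `DD T V`

PROOF. `UTop.dec` with `X = Z = univ` (`DC` of `univ` is trivial, `AM pd e univ univ` by `am H0 hpd`), the name `c`, `Y0 = univ` (`#Y ≤ lam`: `Cardinal.mk_univ`), `b = r.2` gives `a` with `Ex pd e univ a r.2` and, for all `y`, `t`, some `t' ≤ t` with `Dd pd e univ c y (t', a)`. Let `c1 = UTop.rs pd e univ c a : Y → Set P`; by `dnm`: (1) if `Lq pd e univ a1 a t` then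
`Mem L c y (t, a1) ↔ Mem le c1 y t`. `E.red Y hY c1 r.1` gives `t' ≤ r.1` and `c'`. `r' = (t', a)`: `LQ r' r` as `Lq a r.2 t'` (`Ex`). `t' ∈ H` by `E.mono`. For `h ≤ r'`: `Mem L c y h ↔ Mem le c1 y h.1` by (1) (`h = (h.1, h.2)`, `Lq univ h.2 a h.1`) `↔ Mem (leD ..) c' y w` by `E.red` (`h.1 ≤ t'`; `le2 le (fun t a b => Lq pd e univ a b t)` and `LQ pd e` are definitionally equal).
-/

set_option autoImplicit false
universe u

namespace Pool.Agent.UMst

open Cardinal Pool.Agent.PolF Pool.Agent.UlM Pool.Agent.UlB Pool.Agent.UTop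

variable {P K J : Type u} [LinearOrder K] [WellFoundedLT K] [LinearOrder J] [WellFoundedLT J]
  {le : P → P → Prop} {lam : Cardinal.{u}} {pd : J → Set J}
  {e : J → K × K → Set (P × Cn le lam K J)} {T H : Set P} {V : Set (Cn le lam K J)} {ρ : P → P}
  {v : P → Cn le lam K J} {X : Set K} {β : K} {nu : Cardinal.{u}}

theorem trd (H0 : TopH le K lam) (hpd : PdH pd)
    (E : Ext le (fun t a b => Lq pd e Set.univ a b t) T V H ρ v nu) {Y : Type u} (hY : #Y ≤ nu)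
    (hY' : #Y ≤ lam) (c : Y → Set (P × Cn le lam K J)) {r : P × Cn le lam K J} (hr : r.1 ∈ H) :
    ∃ r', LQ pd e r' r ∧ r'.1 ∈ H ∧ ∃ c' : Y → Set ↥(DD T V), ∀ h, LQ pd e h r' →
      ∀ w : ↥(DD T V), w.1 = (ρ h.1, v h.1) → ∀ y,
        (Mem (LQ pd e) c y h ↔ Mem (leD (LQ pd e) (DD T V)) c' y w) := by
  have hu : DC pd (Set.univ : Set J) := fun _ _ _ _ => trivial
  obtain ⟨a, ha, hd⟩ := UTop.dec H0 hpd hu hu subset_rfl (am H0 hpd hu hu subset_rfl) c
    (Set.univ : Set Y) (by rwa [Cardinal.mk_univ]) r.2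
  obtain ⟨t', ht', -, -, c', hc'⟩ := E.red Y hY (UTop.rs pd e Set.univ c a) r.1 hr
  refine ⟨(t', a), ⟨ht', ha.1 t'⟩, (E.mono r.1 hr t' ht').1, c', ?_⟩
  intro h hh w hw y
  have h1 : Mem (Lx pd e Set.univ) c y (h.1, h.2) ↔ Mem le (UTop.rs pd e Set.univ c a) y h.1 :=
    dnm H0 hpd hu (fun t => hd y trivial t) hh.2
  have h2 := hc' h.1 hh.1 w hw y
  exact h1.trans h2

end Pool.Agent.UMst
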